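import Pool.Agent.X309.SZ1

/-!
# The number of exceptional eigenvalues of a congruence subgroup as a limit of sums over closed geodesics

Let `Γ ≤ SL_2(ℤ)` be a congruence subgroup. For a primitive hyperbolic conjugacy class `P` of `Γ / ±1`
(a primitive closed geodesic of `Γ \ ℍ`) of trace `± t` let `N(P) = ((|t| + √(t² - 4)) / 2)²` be its norm and
`ℓ(P) = log N(P)` its length. For real `γ > π / 2` and `T > 0` put

`S_γ(T) = ∑_P ∑_{k ≥ 1} e^{iγkℓ(P)/T} / (2 k sinh(k ℓ(P) / 2) Γ(1 + k ℓ(P) / T))`,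

an absolutely convergent series (`1 / Γ(1 + u)` decays faster than every `e^{-Cu}`, and there are
`O(e^L)` classes with `ℓ(P) ≤ L`).

Theorem. Let `n` be the number of the eigenvalues of the Laplace operator on `Γ \ ℍ` in `(0, 1/4)`, each counted
with its multiplicity. Let `m` be the order at `s = 1/2` of the zeta function of Selberg of `Γ` and
`Λ_γ = ∫_0^∞ (e^{-t} - e^{iγt} / Γ(1 + t)) dt / t`. Then

`S_γ(T) = m (log T - Λ_γ) - c + π i (1 + n) + O(1 / T)`, `c` real,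

so that `m = lim Re S_γ(T) / log T`, and

`1 + n = lim (1 / π) (Im S_γ(T) + (Re S_γ(T) / log T) Im Λ_γ)`.

In particular the conjecture of Selberg holds for `Γ`, if and only if
`Im S_γ(T) + (Re S_γ(T) / log T) Im Λ_γ → π`. The sums only involve the lengths of the closed geodesics
of `Γ \ ℍ`, that is the class numbers and the fundamental units of real quadratic orders, and their splitting
in `Γ`. With positive weights (prime geodesic theorem) one only sees the eigenvalue nearest to `0`.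

Of the theory of Selberg we use: the product `Z(s) = ∏_P ∏_{k ≥ 0} (1 - N(P)^{-s-k})` converges absolutely for
`Re s > 1`, has a meromorphic continuation, with a simple zero at `s = 1`, and at `σ ∈ (1/2, 1)` its order is the
dimension of the space of eigenfunctions for `σ (1 - σ)`, which is finite (`IsSelbergZeta`).

Proof: `e^{iγt} / Γ(1 + t)` is a contour integral of `exp (exp z) e^{-t (z - iγ)}` along the boundary of a half
strip; for `γ > π / 2` the part of the contour where `exp (exp z)` is not extremely small remains below the real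
axis; so `S_γ(T)` is `-log Z` continued along a path which passes the real zeros in `(1/2, 1]` below. See
`Pool.Agent.W187.UR`, `Pool.Agent.X309.RM2` and `Pool.Agent.X309.SZ1`.
-/

set_option autoImplicit false

open Filter Topology Matrix

namespace Pool.Agent.Results.MP_a812b2_nt.CountByClosedGeodesics

/-- A smooth, `Γ`-invariant function on the upper half plane, square integrable modulo `Γ`, with
`-y² (f_xx + f_yy) = μ f` (the notions of Q1). -/
structure IsEigenfunction (Γ : Subgroup (SpecialLinearGroup (Fin 2) ℤ)) (μ : ℝ) (f : ℂ → ℂ) :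
    Prop where
  smooth : ContDiffOn ℝ (⊤ : ℕ∞) f {w : ℂ | 0 < w.im}
  invariant : ∀ γ ∈ Γ, ∀ z : UpperHalfPlane, f ((γ • z : UpperHalfPlane) : ℂ) = f (z : ℂ)
  eigen : ∀ z : UpperHalfPlane,
    -((z.im : ℂ) ^ 2) *
      (deriv (fun s : ℝ => deriv (fun t : ℝ => f ((t : ℂ) + (z.im : ℂ) * Complex.I)) s) z.re
        + deriv (fun s : ℝ => deriv (fun t : ℝ => f ((z.re : ℂ) + (t : ℂ) * Complex.I)) s) z.im)
      = (μ : ℂ) * f (z : ℂ)
  integrable : ∀ γ : SpecialLinearGroup (Fin 2) ℤ,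
    MeasureTheory.IntegrableOn (fun w : ℂ => ‖f w‖ ^ 2 / w.im ^ 2)
      ((fun z : UpperHalfPlane => ((γ • z : UpperHalfPlane) : ℂ)) '' ModularGroup.fd)

/-- The space of the eigenfunctions for `μ`, as functions on the upper half plane. -/
noncomputable def eigenspace (Γ : Subgroup (SpecialLinearGroup (Fin 2) ℤ)) (μ : ℝ) :
    Submodule ℂ (UpperHalfPlane → ℂ) :=
  Submodule.span ℂ {g | ∃ f : ℂ → ℂ, IsEigenfunction Γ μ f ∧ ∀ z : UpperHalfPlane, g z = f z}

/-- `g ∈ Γ` is hyperbolic and, up to sign, not a proper power in `Γ`. -/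
def IsPrimitive (Γ : Subgroup (SpecialLinearGroup (Fin 2) ℤ))
    (g : SpecialLinearGroup (Fin 2) ℤ) : Prop :=
  g ∈ Γ ∧ 2 < |(g : Matrix (Fin 2) (Fin 2) ℤ).trace| ∧
    ∀ h ∈ Γ, ∀ k : ℕ, 2 ≤ k → g ≠ h ^ k ∧ g ≠ -h ^ k

/-- `g` and `g'` are conjugate in `Γ` up to sign. -/
def conj (Γ : Subgroup (SpecialLinearGroup (Fin 2) ℤ)) :
    Setoid {g : SpecialLinearGroup (Fin 2) ℤ // IsPrimitive Γ g} where
  r g g' := ∃ h ∈ Γ, h * g.1 * h⁻¹ = g'.1 ∨ h * g.1 * h⁻¹ = -g'.1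
  iseqv := by
    refine ⟨fun g => ⟨1, Γ.one_mem, Or.inl (by simp)⟩, ?_, ?_⟩
    · rintro g g' ⟨h, hh, h1⟩
      refine ⟨h⁻¹, Γ.inv_mem hh, ?_⟩
      rcases h1 with h1 | h1
      · left
        rw [← h1]; group
      · right
        have h2 : g'.1 = -(h * g.1 * h⁻¹) := by rw [h1, neg_neg]
        rw [h2, mul_neg, neg_mul]
        congr 1
        group
    · rintro g g' g'' ⟨h, hh, h1⟩ ⟨k, hk, h2⟩
      refine ⟨k * h, Γ.mul_mem hk hh, ?_⟩
      have e : k * h * g.1 * (k * h)⁻¹ = k * (h * g.1 * h⁻¹) * k⁻¹ := by group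
      rw [e]
      rcases h1 with h1 | h1 <;> rcases h2 with h2 | h2
      · left; rw [h1, h2]
      · right; rw [h1, h2]
      · right; rw [h1, mul_neg, neg_mul, h2]
      · left; rw [h1, mul_neg, neg_mul, h2, neg_neg]

/-- The primitive closed geodesics of `Γ \ ℍ`: the primitive hyperbolic conjugacy classes of
`Γ / ±1`. -/
def Geodesic (Γ : Subgroup (SpecialLinearGroup (Fin 2) ℤ)) : Type := Quotient (conj Γ)

/-- The norm `((|t| + √(t² - 4)) / 2)²`, `t` the trace. -/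
noncomputable def geoNorm {Γ : Subgroup (SpecialLinearGroup (Fin 2) ℤ)} (P : Geodesic Γ) : ℝ :=
  ((|(((Quotient.out P).1 : Matrix (Fin 2) (Fin 2) ℤ).trace : ℝ)| +
    √((((Quotient.out P).1 : Matrix (Fin 2) (Fin 2) ℤ).trace : ℝ) ^ 2 - 4)) / 2) ^ 2

/-- `Z` is the zeta function of Selberg of `Γ`, and has the properties found by Selberg. -/
structure IsSelbergZeta (Γ : Subgroup (SpecialLinearGroup (Fin 2) ℤ)) (Z : ℂ → ℂ) : Prop where
  summable : ∀ σ : ℝ, 1 < σ → Summable fun P : Geodesic Γ => geoNorm P ^ (-σ)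
  prod : ∀ s : ℂ, 1 < s.re →
    HasProd (fun x : Geodesic Γ × ℕ => 1 - (geoNorm x.1 : ℂ) ^ (-(s + x.2))) (Z s)
  mero : ∀ s : ℂ, MeromorphicAt Z s
  one : meromorphicOrderAt Z 1 = 1
  small : ∀ σ : ℝ, 1 / 2 < σ → σ < 1 → FiniteDimensional ℂ (eigenspace Γ (σ * (1 - σ))) ∧
    meromorphicOrderAt Z (σ : ℂ) =
      ((Module.finrank ℂ (eigenspace Γ (σ * (1 - σ))) : ℤ) : WithTop ℤ)

/-- The term of `P` and `k = x.2 + 1`: `e^{iγkℓ/T} / (2 k sinh(k ℓ / 2) Γ(1 + k ℓ / T))`, `ℓ = log N(P)`. -/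
noncomputable def term {Γ : Subgroup (SpecialLinearGroup (Fin 2) ℤ)} (γ T : ℝ)
    (x : Geodesic Γ × ℕ) : ℂ :=
  Complex.exp ((γ * ((x.2 + 1) * Real.log (geoNorm x.1)) / T : ℝ) * Complex.I) /
    ((2 * (x.2 + 1) * Real.sinh ((x.2 + 1) * Real.log (geoNorm x.1) / 2) *
      Real.Gamma (1 + (x.2 + 1) * Real.log (geoNorm x.1) / T) : ℝ) : ℂ)

/-- `S_γ(T)` -/
noncomputable def S (Γ : Subgroup (SpecialLinearGroup (Fin 2) ℤ)) (γ T : ℝ) : ℂ :=
  ∑' x : Geodesic Γ × ℕ, term γ T x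

/-- `Λ_γ = ∫_0^∞ (e^{-t} - e^{iγt} / Γ(1 + t)) dt / t` -/
noncomputable def Lambda (γ : ℝ) : ℂ := ∫ t in Set.Ioi (0 : ℝ),
  (Complex.exp (-(t : ℂ)) - Complex.exp ((γ * t : ℝ) * Complex.I) * ((Real.Gamma (1 + t))⁻¹ : ℝ)) / t

/-- The number of the eigenvalues in `(0, 1/4)`, with multiplicities. -/
noncomputable def exceptional (Γ : Subgroup (SpecialLinearGroup (Fin 2) ℤ)) : ℤ :=
  ∑ᶠ μ ∈ Set.Ioo (0 : ℝ) (1 / 4), (Module.finrank ℂ (eigenspace Γ μ) : ℤ)

/-- The conjecture of Selberg for `Γ`. -/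
def SelbergFor (Γ : Subgroup (SpecialLinearGroup (Fin 2) ℤ)) : Prop :=
  ∀ (f : ℂ → ℂ) (μ : ℝ), 0 < μ → μ < 1 / 4 → IsEigenfunction Γ μ f →
    ∀ z : UpperHalfPlane, f (z : ℂ) = 0

variable {Γ : Subgroup (SpecialLinearGroup (Fin 2) ℤ)} {Z : ℂ → ℂ}

instance : Countable (Geodesic Γ) := by
  have : Countable (SpecialLinearGroup (Fin 2) ℤ) := by
    have h : Countable (Matrix (Fin 2) (Fin 2) ℤ) := inferInstanceAs (Countable (Fin 2 → Fin 2 → ℤ))
    exact Subtype.countable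
  unfold Geodesic
  infer_instance

theorem two_le (P : Geodesic Γ) : 2 ≤ geoNorm P := by
  unfold geoNorm
  set g := Quotient.out P with hg
  have h1 : 2 < |(g.1 : Matrix (Fin 2) (Fin 2) ℤ).trace| := g.2.2.1
  have h2 : (3 : ℝ) ≤ |((g.1 : Matrix (Fin 2) (Fin 2) ℤ).trace : ℝ)| := by
    have h3 : (3 : ℤ) ≤ |(g.1 : Matrix (Fin 2) (Fin 2) ℤ).trace| := by omega
    exact_mod_cast h3
  have h4 : 0 ≤ √(((g.1 : Matrix (Fin 2) (Fin 2) ℤ).trace : ℝ) ^ 2 - 4) := Real.sqrt_nonneg _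
  nlinarith

theorem geo (h : IsSelbergZeta Γ Z) : Pool.Agent.X309.SZ.Geo (geoNorm (Γ := Γ)) where
  cnt := inferInstance
  two_le := two_le
  sum := h.summable

theorem data (h : IsSelbergZeta Γ Z) :
    Pool.Agent.X309.RM2.HD (Pool.Agent.X309.SZ.len (geoNorm (Γ := Γ)))
      (Pool.Agent.X309.SZ.cZ (geoNorm (Γ := Γ))) (fun w => Z (1 / 2 + w)) where
  cnt := inferInstance
  lam_nonneg := fun x => ((geo h).len_pos x).le
  sum := fun σ hσ => (geo h).summable hσ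
  mero := fun x _ _ => by
    have h3 : AnalyticAt ℂ (fun w : ℂ => (1 / 2 : ℂ) + w) (x : ℂ) := by fun_prop
    exact (h.mero _).comp_analyticAt h3
  eq := fun w hw => by
    have h1 := h.prod (1 / 2 + w) (by
      have : ((1 / 2 : ℂ) + w).re = 1 / 2 + w.re := by simp
      rw [this]; linarith)
    have h2 := (geo h).hasProd hw
    have e : (fun x : Geodesic Γ × ℕ => 1 - (geoNorm x.1 : ℂ) ^ (-((1 / 2 + w) + x.2))) =
        fun x : Geodesic Γ × ℕ => 1 - Complex.exp (-((1 / 2 + w) * Real.log (geoNorm x.1))) *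
          (((geoNorm x.1)⁻¹ : ℝ) : ℂ) ^ x.2 := by
      funext x
      have h0 := (geo h).pos x.1
      have h0c : (geoNorm x.1 : ℂ) ≠ 0 := by exact_mod_cast h0.ne'
      rw [neg_add, Complex.cpow_add _ _ h0c, Complex.cpow_neg _ (x.2 : ℂ), Complex.cpow_natCast,
        Complex.cpow_def_of_ne_zero h0c, ← Complex.ofReal_log h0.le]
      push_cast
      rw [inv_pow]
      congr 3
      ring
    rw [e] at h1
    exact h1.unique h2

theorem order_shift (F : ℂ → ℂ) (x : ℝ) :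
    meromorphicOrderAt (fun w => F (1 / 2 + w)) (x : ℂ) =
      meromorphicOrderAt F ((1 / 2 + x : ℝ) : ℂ) := by
  have h1 : (fun w : ℂ => F (1 / 2 + w)) = F ∘ (· + (1 / 2 : ℂ)) := by
    funext w; simp [add_comm]
  rw [h1, meromorphicOrderAt_comp_add_const_eq_meromorphicOrderAt]
  push_cast
  rw [add_comm]

theorem coeff_shift0 (F : ℂ → ℂ) :
    meromorphicTrailingCoeffAt (fun w => F (1 / 2 + w)) 0 =
      meromorphicTrailingCoeffAt F (1 / 2) := by
  have h1 : (fun w : ℂ => F (1 / 2 + w)) = F ∘ (· + (1 / 2 : ℂ)) := by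
    funext w; simp [add_comm]
  rw [h1, meromorphicTrailingCoeffAt_comp_add_const_eq_meromorphicTrailingCoeffAt]
  simp

theorem term_eq (γ T : ℝ) (x : Geodesic Γ × ℕ) :
    term γ T x = -((Pool.Agent.X309.SZ.cZ (geoNorm (Γ := Γ)) x : ℂ) *
      Complex.exp ((γ * (Pool.Agent.X309.SZ.len (geoNorm (Γ := Γ)) x / T) : ℝ) * Complex.I) *
      (Pool.Agent.W189.ML.om (Pool.Agent.X309.SZ.len (geoNorm (Γ := Γ)) x / T) : ℂ)) := by
  unfold term Pool.Agent.X309.SZ.cZ Pool.Agent.W189.ML.om Pool.Agent.X309.SZ.len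
  have e : γ * (((x.2 : ℝ) + 1) * Real.log (geoNorm x.1)) / T =
      γ * (((x.2 : ℝ) + 1) * Real.log (geoNorm x.1) / T) := by ring
  rw [e]
  push_cast
  simp only [div_eq_mul_inv, mul_inv]
  ring

theorem S_eq (γ T : ℝ) :
    S Γ γ T = -Pool.Agent.W187.UR.cmean (Pool.Agent.X309.SZ.len (geoNorm (Γ := Γ)))
      (Pool.Agent.X309.SZ.cZ (geoNorm (Γ := Γ))) γ T := by
  unfold S Pool.Agent.W187.UR.cmean
  rw [← tsum_neg]
  exact tsum_congr fun x => term_eq γ T x

theorem term_norm (h : IsSelbergZeta Γ Z) (γ : ℝ) {T : ℝ} (hT : 0 < T) (x : Geodesic Γ × ℕ) :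
    ‖term γ T x‖ = |Pool.Agent.X309.SZ.cZ (geoNorm (Γ := Γ)) x| *
      Pool.Agent.W189.ML.om (Pool.Agent.X309.SZ.len (geoNorm (Γ := Γ)) x / T) := by
  rw [term_eq γ T, norm_neg, norm_mul, norm_mul, Complex.norm_exp_ofReal_mul_I, mul_one,
    Complex.norm_real, Complex.norm_real, Real.norm_eq_abs, Real.norm_eq_abs]
  congr 1
  apply abs_of_pos
  unfold Pool.Agent.W189.ML.om
  have h1 := (geo h).len_pos x
  have h2 : 0 < Pool.Agent.X309.SZ.len (geoNorm (Γ := Γ)) x / T := by positivity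
  have := Real.Gamma_pos_of_pos (by linarith :
    0 < 1 + Pool.Agent.X309.SZ.len (geoNorm (Γ := Γ)) x / T)
  positivity

/-- order at a point of `(0, 1/2)` -/
theorem order_small (h : IsSelbergZeta Γ Z) {x : ℝ} (h0 : 0 < x) (h1 : x < 1 / 2) :
    FiniteDimensional ℂ (eigenspace Γ (1 / 4 - x ^ 2)) ∧
    meromorphicOrderAt (fun w => Z (1 / 2 + w)) (x : ℂ) =
      ((Module.finrank ℂ (eigenspace Γ (1 / 4 - x ^ 2)) : ℤ) : WithTop ℤ) := by
  have h2 := h.small (1 / 2 + x) (by linarith) (by linarith)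
  have e : (1 / 2 + x) * (1 - (1 / 2 + x)) = 1 / 4 - x ^ 2 := by ring
  rw [e] at h2
  refine ⟨h2.1, ?_⟩
  rw [order_shift]
  exact h2.2

theorem order_half (h : IsSelbergZeta Γ Z) :
    meromorphicOrderAt (fun w => Z (1 / 2 + w)) ((1 / 2 : ℝ) : ℂ) = 1 := by
  rw [order_shift]
  have e : ((1 / 2 + 1 / 2 : ℝ) : ℂ) = 1 := by norm_num
  rw [e]
  exact h.one

theorem bij : Set.BijOn (fun x : ℝ => 1 / 4 - x ^ 2) (Set.Ioo (0 : ℝ) (1 / 2))
    (Set.Ioo (0 : ℝ) (1 / 4)) := by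
  refine ⟨?_, ?_, ?_⟩
  · rintro x ⟨h1, h2⟩
    refine ⟨?_, ?_⟩
    · simp only
      nlinarith
    · simp only
      nlinarith
  · rintro x ⟨h1, h2⟩ y ⟨h3, h4⟩ h
    simp only at h
    nlinarith [mul_self_eq_mul_self_iff (a := x) (b := y)]
  · rintro μ ⟨h1, h2⟩
    refine ⟨√(1 / 4 - μ), ⟨Real.sqrt_pos.2 (by linarith), ?_⟩, ?_⟩
    · rw [Real.sqrt_lt' (by norm_num)]
      linarith
    · simp only
      rw [Real.sq_sqrt (by linarith)]
      ring

/-- the support of the dimensions is finite -/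
theorem finite_exc (h : IsSelbergZeta Γ Z) :
    {μ : ℝ | μ ∈ Set.Ioo (0 : ℝ) (1 / 4) ∧ eigenspace Γ μ ≠ ⊥}.Finite := by
  refine ((data h).finite_real.image fun x : ℝ => 1 / 4 - x ^ 2).subset ?_
  rintro μ ⟨hμ, hne⟩
  obtain ⟨x, hx, rfl⟩ := bij.surjOn hμ
  refine ⟨x, ⟨hx.1, ?_⟩, rfl⟩
  obtain ⟨h1, h2⟩ := order_small h hx.1 hx.2
  rw [h2]
  intro h3
  have h4 : Module.finrank ℂ (eigenspace Γ (1 / 4 - x ^ 2)) = 0 := by exact_mod_cast h3
  exact hne (Submodule.finrank_eq_zero.1 h4)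

theorem exc_eq (h : IsSelbergZeta Γ Z) :
    Pool.Agent.X309.RM2.exc (fun w => Z (1 / 2 + w)) = 1 + exceptional Γ := by
  unfold Pool.Agent.X309.RM2.exc exceptional
  have D := data h
  set f : ℝ → ℤ := fun x => (meromorphicOrderAt (fun w => Z (1 / 2 + w)) (x : ℂ)).untop₀ with hf
  have hfin : (Set.Ioi (0 : ℝ) ∩ Function.support f).Finite := by
    refine D.finite_real.subset ?_
    rintro x ⟨h1, h2⟩
    refine ⟨h1, fun h3 => h2 ?_⟩
    simp only [hf, h3]
    simp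
  have e1 : Set.Ioi (0 : ℝ) = Set.Ioo 0 (1 / 2) ∪ Set.Ici (1 / 2) := by
    rw [Set.Ioo_union_Ici_eq_Ioi (by norm_num)]
  have e2 : ∑ᶠ x ∈ Set.Ioi (0 : ℝ), f x =
      ∑ᶠ x ∈ Set.Ioo (0 : ℝ) (1 / 2), f x + ∑ᶠ x ∈ Set.Ici (1 / 2 : ℝ), f x := by
    rw [e1]
    refine finsum_mem_union' ?_ (hfin.subset ?_) (hfin.subset ?_)
    · rw [Set.disjoint_left]
      rintro x ⟨-, h1⟩ h2
      exact absurd h1 (not_lt.2 h2)
    · rintro x ⟨h1, h2⟩
      exact ⟨h1.1, h2⟩
    · rintro x ⟨h1, h2⟩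
      exact ⟨lt_of_lt_of_le (by norm_num) (Set.mem_Ici.1 h1), h2⟩
  have e3 : ∑ᶠ x ∈ Set.Ici (1 / 2 : ℝ), f x = 1 := by
    have e4 : ∑ᶠ x ∈ Set.Ici (1 / 2 : ℝ), f x = ∑ᶠ x ∈ ({1 / 2} : Set ℝ), f x := by
      refine finsum_mem_inter_support_eq' _ _ _ fun x hx => ?_
      rw [Set.mem_singleton_iff]
      constructor
      · intro h1
        by_contra h2
        have h3 : 1 / 2 < x := lt_of_le_of_ne (Set.mem_Ici.1 h1) (Ne.symm h2)
        apply hx
        simp only [hf]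
        rw [D.order_right (w := (x : ℂ)) (by rw [Complex.ofReal_re]; exact h3)]
        simp
      · rintro rfl
        exact Set.mem_Ici.2 le_rfl
    rw [e4, finsum_mem_singleton]
    simp only [hf]
    rw [order_half h]
    rfl
  have e5 : ∑ᶠ x ∈ Set.Ioo (0 : ℝ) (1 / 2), f x =
      ∑ᶠ μ ∈ Set.Ioo (0 : ℝ) (1 / 4), (Module.finrank ℂ (eigenspace Γ μ) : ℤ) := by
    refine finsum_mem_eq_of_bijOn _ bij ?_
    rintro x ⟨h1, h2⟩
    simp only [hf]
    rw [(order_small h h1 h2).2]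
    rfl
  rw [e2, e3, e5]
  ring

theorem selberg_iff (h : IsSelbergZeta Γ Z) : SelbergFor Γ ↔ exceptional Γ = 0 := by
  have key : SelbergFor Γ ↔ ∀ μ ∈ Set.Ioo (0 : ℝ) (1 / 4), eigenspace Γ μ = ⊥ := by
    constructor
    · rintro h1 μ ⟨h2, h3⟩
      unfold eigenspace
      rw [Submodule.span_eq_bot]
      rintro g ⟨f, hf, hg⟩
      funext z
      rw [hg z, h1 f μ h2 h3 hf z]
      rfl
    · intro h1 f μ h2 h3 hf z
      have h4 : (fun z : UpperHalfPlane => f z) ∈ eigenspace Γ μ :=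
        Submodule.subset_span ⟨f, hf, fun _ => rfl⟩
      rw [h1 μ ⟨h2, h3⟩, Submodule.mem_bot] at h4
      exact congrFun h4 z
  rw [key]
  constructor
  · intro h1
    unfold exceptional
    refine finsum_mem_eq_zero_of_forall_eq_zero fun μ hμ => ?_
    rw [h1 μ hμ]
    simp
  · intro h1 μ hμ
    by_contra hne
    have hfin : (Function.support fun ν : ℝ => ∑ᶠ (_ : ν ∈ Set.Ioo (0 : ℝ) (1 / 4)),
        (Module.finrank ℂ (eigenspace Γ ν) : ℤ)).Finite := by
      refine (finite_exc h).subset ?_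
      intro ν hν
      rw [Function.mem_support] at hν
      by_cases hm : ν ∈ Set.Ioo (0 : ℝ) (1 / 4)
      · refine ⟨hm, fun h2 => hν ?_⟩
        rw [h2]
        simp
      · exact absurd (by simp only [hm, finsum_false]) hν
    have h2 := single_le_finsum (f := fun ν : ℝ => ∑ᶠ (_ : ν ∈ Set.Ioo (0 : ℝ) (1 / 4)),
      (Module.finrank ℂ (eigenspace Γ ν) : ℤ)) μ hfin (fun ν => by
        by_cases hm : ν ∈ Set.Ioo (0 : ℝ) (1 / 4)
        · simp only [hm, finsum_true]; exact Int.natCast_nonneg _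
        · simp only [hm, finsum_false]; exact le_rfl)
    have h3 : (∑ᶠ (_ : μ ∈ Set.Ioo (0 : ℝ) (1 / 4)),
        (Module.finrank ℂ (eigenspace Γ μ) : ℤ)) = Module.finrank ℂ (eigenspace Γ μ) := by
      simp only [hμ, finsum_true]
    rw [h3] at h2
    have h4 : (Module.finrank ℂ (eigenspace Γ μ) : ℤ) ≤ 0 := by
      rw [← h1]
      exact h2
    have h5 : Module.finrank ℂ (eigenspace Γ μ) = 0 := by omega
    obtain ⟨x, hx, rfl⟩ := bij.surjOn hμ
    have h6 := (order_small h hx.1 hx.2).1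
    exact hne (Submodule.finrank_eq_zero.1 h5)

/-- **The number of exceptional eigenvalues as a limit of sums over closed geodesics.** -/
theorem result (Γ : Subgroup (SpecialLinearGroup (Fin 2) ℤ))
    (Z : ℂ → ℂ) (hZ : IsSelbergZeta Γ Z) (γ : ℝ) (hγ : Real.pi / 2 < γ) :
    (∀ T : ℝ, 0 < T → Summable fun x : Geodesic Γ × ℕ => ‖term γ T x‖) ∧
    MeasureTheory.IntegrableOn (fun t : ℝ => (Complex.exp (-(t : ℂ)) -
      Complex.exp ((γ * t : ℝ) * Complex.I) * ((Real.Gamma (1 + t))⁻¹ : ℝ)) / t)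
      (Set.Ioi (0 : ℝ)) ∧
    {μ : ℝ | μ ∈ Set.Ioo (0 : ℝ) (1 / 4) ∧ eigenspace Γ μ ≠ ⊥}.Finite ∧
    (∃ (m : ℤ) (l : ℝ), meromorphicOrderAt Z (1 / 2) = m ∧
      meromorphicTrailingCoeffAt Z (1 / 2) = l ∧ l ≠ 0 ∧
      (fun T : ℝ => S Γ γ T - (m * (Real.log T - Lambda γ) - Real.log |l| +
        Real.pi * (1 + exceptional Γ) * Complex.I)) =O[atTop] (fun T : ℝ => 1 / T) ∧
      Tendsto (fun T : ℝ => (S Γ γ T).re / Real.log T) atTop (𝓝 (m : ℝ))) ∧
    Tendsto (fun T : ℝ => (S Γ γ T).im + (S Γ γ T).re / Real.log T * (Lambda γ).im) atTop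
      (𝓝 (Real.pi * (1 + exceptional Γ))) ∧
    (SelbergFor Γ ↔
      Tendsto (fun T : ℝ => (S Γ γ T).im + (S Γ γ T).re / Real.log T * (Lambda γ).im) atTop
        (𝓝 Real.pi)) := by
  have D := data hZ
  obtain ⟨m, l, h1, h2, h3, h4, -⟩ := D.rot hγ
  obtain ⟨h5, -, h6⟩ := D.rot_parts hγ h1
  have hev : ∀ᶠ T : ℝ in atTop, S Γ γ T =
      -Pool.Agent.W187.UR.cmean (Pool.Agent.X309.SZ.len (geoNorm (Γ := Γ)))
        (Pool.Agent.X309.SZ.cZ (geoNorm (Γ := Γ))) γ T := by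
    exact Eventually.of_forall fun T => S_eq γ T
  rw [exc_eq hZ] at h4 h6
  have h6' : Tendsto (fun T : ℝ => (S Γ γ T).im + (S Γ γ T).re / Real.log T * (Lambda γ).im) atTop
      (𝓝 (Real.pi * (1 + exceptional Γ))) := by
    have e : Real.pi * ((1 + exceptional Γ : ℤ) : ℝ) = Real.pi * (1 + exceptional Γ) := by
      push_cast; ring
    rw [e] at h6
    refine h6.congr' ?_
    filter_upwards [hev] with T hT
    rw [hT]
    rfl
  refine ⟨fun T hT => ?_, Pool.Agent.W351.UR.cq_int γ, finite_exc hZ, ⟨m, l, ?_, ?_, h3, ?_, ?_⟩,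
    h6', ?_⟩
  · refine (D.mean_summable hT).congr fun x => ?_
    rw [term_norm hZ γ hT]
  · have := order_shift Z 0
    rw [Complex.ofReal_zero] at this
    rw [this] at h1
    simpa using h1
  · rw [← coeff_shift0]
    exact h2
  · refine h4.congr' ?_ EventuallyEq.rfl
    filter_upwards [hev] with T hT
    rw [hT]
    push_cast
    rfl
  · refine h5.congr' ?_
    filter_upwards [hev] with T hT
    rw [hT]
  · rw [selberg_iff hZ]
    constructor
    · intro h7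
      rw [h7] at h6'
      simpa using h6'
    · intro h7
      have h8 := tendsto_nhds_unique h6' h7
      have h9 : Real.pi * (exceptional Γ : ℝ) = 0 := by linarith
      rcases mul_eq_zero.1 h9 with h10 | h10
      · exact absurd h10 Real.pi_ne_zero
      · exact_mod_cast h10

end Pool.Agent.Results.MP_a812b2_nt.CountByClosedGeodesics
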