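import Mathlib
import Pool.Agent.X298.SE.Crit
import Pool.Agent.X298.ST.Defs

/-!
# Selberg's eigenvalue conjecture for a Maass newform, and the primes in the residue classes `±1` modulo `q`

Let `f` be a Maass newform of weight `0` (any level, any nebentypus; even, `ε = 0`, or odd, `ε = 1`), with Laplace eigenvalue
`λ = 1/4 - ν²`, `ν` purely imaginary or real with `|ν| < 1/2`, and let `q ≥ 5` be a prime which does not divide the level. Let
`α_{p,1}, α_{p,2}` be the numbers with `L(s, f) = ∏_p (1 - α_{p,1} p^{-s})⁻¹ (1 - α_{p,2} p^{-s})⁻¹`. For a residue class `a`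
modulo `q`, prime to `q`, `0 < σ < 1`, `γ > π/2` and `T > 0` let

  `S_a(σ, T) = ∑_{p^k ≡ a mod q} (α_{p,1}^k + α_{p,2}^k) p^{kσ} e^{iγ k log p / T} / (k Γ(1 + k log p / T))`,

an absolutely convergent sum over the prime powers in the residue class `a`. We show:

* `S_a(σ, T) = r - m_a(σ) (log T - Λ(γ)) + O(1/T)` with
  `m_a(σ) = n_q(σ) / (q - 1) + [a = 1] (n_ε(σ) + n_{1-ε}(σ)) / 2 + [a = -1] (n_ε(σ) - n_{1-ε}(σ)) / 2`,
  where `n_e(σ)` is the number of the signs with `e ± ν = σ`, and `n_q(σ)` the number of the `j` with `α_{q,j} = q^{-σ}`.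
  So an eigenvalue `λ < 1/4` is seen by the prime powers in the classes `1` and `-1` **only**, the other classes `b ≢ ±1` see
  nothing of the real place; a violation of the Ramanujan conjecture at `q` (of this sign) is seen by all the classes equally;
* **Selberg's conjecture for `f`**: `λ ≥ 1/4` if and only if for `b ≢ ±1` and all `0 < σ < 1` the difference
  `Re S_1(σ, T) - Re S_b(σ, T)` is bounded for `T → ∞`, and if and only if for all these `σ` there is `c < 1/2` such that it is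
  at least `- c log T` for arbitrarily large `T`;
* the exceptional eigenvalue: for `0 < σ < 1/2`, `λ = 1/4 - σ²` if and only if
  `Re (S_1(σ, T) + (1 - 2ε) S_{-1}(σ, T) - (2 - 2ε) S_b(σ, T)) → -∞`.

The proof: if `χ` is a character modulo `q`, the Gamma factors `Γ_ℝ(s + ε_χ + ν) Γ_ℝ(s + ε_χ - ν)` of `L(s, f × χ)`, where
`ε_χ = ε` for even and `1 - ε` for odd `χ`, force zeros of `L(s, f × χ)` on the segment `-1 < s < 0`; there are no others since
the mirror point `1 - s` lies in the half plane of absolute convergence. Their orders are seen by the rotated means of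
`log L(s, f × χ)`, and the orthogonality relations give the sums over the residue classes.
-/

set_option autoImplicit false

namespace Pool.Agent.Results.MP_a812b2_nt.ExceptionalInResidueClasses

open Filter
open Pool.Agent.X298.SE
open Pool.Agent.X298.ST (Lambda)

/-- **Exceptional eigenvalues are seen in the residue classes `±1` only.** -/
theorem result (q : Nat.Primes) (hq : 5 ≤ (q : ℕ)) (ε : ℕ) (ν : ℂ) (α : Nat.Primes → Fin 2 → ℂ)
    (h : MaassForm (q : ℕ) ε ν α) (γ : ℝ) (hγ : Real.pi / 2 < γ) :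
    (∀ (a : ZMod (q : ℕ)) (σ T : ℝ), IsUnit a → 0 < T → Summable fun x => ‖term α a γ σ T x‖) ∧
    (∀ (a : ZMod (q : ℕ)) (σ : ℝ), IsUnit a → 0 < σ → σ < 1 →
      ∃ r : ℂ, (fun T : ℝ => S α a γ σ T - (r - mu q ε ν α a σ * (Real.log T - Lambda γ))) =O[atTop]
        (fun T : ℝ => 1 / T)) ∧
    ∀ b : ZMod (q : ℕ), IsUnit b → b ≠ 1 → b ≠ -1 →
      (1 / 4 ≤ eigenvalue ν ↔ ∀ σ : ℝ, 0 < σ → σ < 1 → ∃ C : ℝ, ∀ᶠ T : ℝ in atTop,
        |(S α (1 : ZMod (q : ℕ)) γ σ T).re - (S α b γ σ T).re| ≤ C) ∧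
      (1 / 4 ≤ eigenvalue ν ↔ ∀ σ : ℝ, 0 < σ → σ < 1 → ∃ c : ℝ, c < 1 / 2 ∧ ∃ᶠ T : ℝ in atTop,
        -(c * Real.log T) ≤ (S α (1 : ZMod (q : ℕ)) γ σ T).re - (S α b γ σ T).re) ∧
      ∀ σ : ℝ, 0 < σ → σ < 1 / 2 → (eigenvalue ν = 1 / 4 - σ ^ 2 ↔ Tendsto (fun T : ℝ =>
        (S α (1 : ZMod (q : ℕ)) γ σ T).re + (1 - 2 * ε) * (S α (-1 : ZMod (q : ℕ)) γ σ T).re -
          (2 - 2 * ε) * (S α b γ σ T).re) atTop atBot) := by
  refine ⟨fun a σ T ha hT => term_summable h.local_params ha γ σ hT,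
    fun a σ ha h0 h1 => S_law h hγ h0 h1 ha, fun b hb hb1 hb2 => ?_⟩
  obtain ⟨h1, h2⟩ := criterion hq hb hb1 hb2 h hγ
  have h3 : (∀ σ : ℝ, 0 < σ → σ < 1 → ∃ C : ℝ, ∀ᶠ T : ℝ in atTop,
      |(S α (1 : ZMod (q : ℕ)) γ σ T).re - (S α b γ σ T).re| ≤ C) →
      ∀ σ : ℝ, 0 < σ → σ < 1 → ∃ c : ℝ, c < 1 / 2 ∧ ∃ᶠ T : ℝ in atTop,
        -(c * Real.log T) ≤ (S α (1 : ZMod (q : ℕ)) γ σ T).re - (S α b γ σ T).re := by
    intro H σ h4 h5
    obtain ⟨C, hC⟩ := H σ h4 h5
    refine ⟨1 / 4, by norm_num, Eventually.frequently ?_⟩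
    have h6 : ∀ᶠ T : ℝ in atTop, 4 * C < Real.log T :=
      Real.tendsto_log_atTop.eventually (eventually_gt_atTop _)
    filter_upwards [hC, h6] with T h7 h8
    have h9 := (abs_le.1 h7).1
    linarith
  exact ⟨⟨h1, fun H => h2 (h3 H)⟩, ⟨fun H => h3 (h1 H), h2⟩,
    fun σ h0 hσ => value_iff hq hb hb1 hb2 h hγ h0 hσ⟩

end Pool.Agent.Results.MP_a812b2_nt.ExceptionalInResidueClasses
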