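import Pool.Agent.X27.Mult.Dens

/-!
# The distribution of the levels with small eigenvalues

For one of the families `Γ(N)`, `Γ_1(N)`, `Γ_0(N)` and real `t` let `S_t` be the set of the levels `N ≥ 1` whose
group has an eigenvalue in the interval `(0, t)`; the conjecture of Selberg says that `S_{1/4}` is empty.

Theorem.
* For each `t` the proportion `∑_{N ∈ S_t} N^{-s} / ζ(s)` of the exceptional levels does not increase with
  `s > 1`; in particular it has a limit `F(t)` for `s → 1`: the exceptional levels have an analytic density.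
* `F` is a distribution function: it takes values in `[0, 1]`, is monotone and continuous from the left.
* For each `ε > 0` there are finitely many levels in `S_t` whose multiples have analytic density at least
  `F(t) - ε`: up to a set of density `ε` all exceptional levels come from finitely many levels.
* If `N ∈ S_t` then `F(t) ≥ 1/N`, and `S_t` contains at least `X/N - 1` of the numbers up to `X`.
* So `F(t) = 0` if and only if `S_t` is empty; and the conjecture of Selberg (for all congruence subgroups) holds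
  if and only if `F(1/4) = 0` for the family `Γ(N)`, if and only if the number of exceptional levels up to `X` is
  not bounded below by a positive multiple of `X` for large `X`.

Proof. If `N ∈ S_t` then all multiples of `N` are in `S_t`. Let `1 < s' ≤ s`. The Dirichlet series
`ζ(s') / ζ(s) = ∑ h(m) m^{-s'}` has nonnegative coefficients (with `m^{-s'}` absorbed: `H = n^{-s'} * μ(n) n^{-s}`),
and `∑_{N ∈ S} N^{-s} ∑_m H(m) ≤ ∑_{N ∈ S} N^{-s'}` as `S` is closed under multiples. (That sets of multiples have a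
logarithmic density is a theorem of Davenport and Erdős.)
-/

set_option autoImplicit false

open Filter Topology Matrix

namespace Pool.Agent.Results.MP_a812b2_nt.LogarithmicDistribution

open Pool.Agent.X27.Mult

/-- A smooth, `Γ`-invariant function on the upper half plane, square integrable modulo `Γ`, with
`-y² (f_xx + f_yy) = μ f` (the notions of Q1). -/
structure IsEigenfunction (Γ : Subgroup (SpecialLinearGroup (Fin 2) ℤ)) (μ : ℝ) (f : ℂ → ℂ) :
    Prop where
  smooth : ContDiffOn ℝ (⊤ : ℕ∞) f {w : ℂ | 0 < w.im}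
  invariant : ∀ γ ∈ Γ, ∀ z : UpperHalfPlane, f ((γ • z : UpperHalfPlane) : ℂ) = f (z : ℂ)
  eigen : ∀ z : UpperHalfPlane,
    -((z.im : ℂ) ^ 2) *
      (deriv (fun s : ℝ => deriv (fun t : ℝ => f ((t : ℂ) + (z.im : ℂ) * Complex.I)) s) z.re
        + deriv (fun s : ℝ => deriv (fun t : ℝ => f ((z.re : ℂ) + (t : ℂ) * Complex.I)) s) z.im)
      = (μ : ℂ) * f (z : ℂ)
  integrable : ∀ γ : SpecialLinearGroup (Fin 2) ℤ,
    MeasureTheory.IntegrableOn (fun w : ℂ => ‖f w‖ ^ 2 / w.im ^ 2)
      ((fun z : UpperHalfPlane => ((γ • z : UpperHalfPlane) : ℂ)) '' ModularGroup.fd)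

/-- `μ` is an eigenvalue of `Γ \ ℍ`. -/
def HasEigenvalue (Γ : Subgroup (SpecialLinearGroup (Fin 2) ℤ)) (μ : ℝ) : Prop :=
  ∃ f : ℂ → ℂ, IsEigenfunction Γ μ f ∧ ∃ z : UpperHalfPlane, f (z : ℂ) ≠ 0

/-- The conjecture of Selberg: Q1. -/
def SelbergConjecture : Prop :=
  ∀ Γ : Subgroup (SpecialLinearGroup (Fin 2) ℤ),
    (∃ N : ℕ, 0 < N ∧ CongruenceSubgroup.Gamma N ≤ Γ) → ∀ μ : ℝ, 0 < μ → μ < 1 / 4 →
      ¬ HasEigenvalue Γ μ

/-- The three families of congruence subgroups. -/
inductive Family
  | principal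
  | one
  | zero

/-- The group of level `N`. -/
def Family.group : Family → ℕ → Subgroup (SpecialLinearGroup (Fin 2) ℤ)
  | .principal, N => CongruenceSubgroup.Gamma N
  | .one, N => CongruenceSubgroup.Gamma1 N
  | .zero, N => CongruenceSubgroup.Gamma0 N

/-- The levels whose group has an eigenvalue in `(0, t)`. -/
def levels (φ : Family) (t : ℝ) : Set ℕ :=
  {N | 1 ≤ N ∧ ∃ μ : ℝ, 0 < μ ∧ μ < t ∧ HasEigenvalue (φ.group N) μ}

theorem HasEigenvalue.anti {Γ Γ' : Subgroup (SpecialLinearGroup (Fin 2) ℤ)} (h : Γ' ≤ Γ) {μ : ℝ}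
    (hμ : HasEigenvalue Γ μ) : HasEigenvalue Γ' μ := by
  obtain ⟨f, hf, hz⟩ := hμ
  exact ⟨f, ⟨hf.smooth, fun γ hγ z => hf.invariant γ (h hγ) z, hf.eigen, hf.integrable⟩, hz⟩

theorem cast_zero {N M : ℕ} {a : ℤ} (h : (a : ZMod (N * M)) = 0) : (a : ZMod N) = 0 := by
  have h1 := (ZMod.intCast_zmod_eq_zero_iff_dvd a (N * M)).1 h
  exact (ZMod.intCast_zmod_eq_zero_iff_dvd a N).2
    ((Int.natCast_dvd_natCast.2 ⟨M, rfl⟩).trans h1)

theorem cast_eq {N M : ℕ} {a b : ℤ} (h : (a : ZMod (N * M)) = b) : (a : ZMod N) = b := by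
  have h1 : ((a - b : ℤ) : ZMod (N * M)) = 0 := by push_cast; rw [h, sub_self]
  have h2 := cast_zero h1
  push_cast at h2
  exact sub_eq_zero.1 h2

theorem group_le (φ : Family) (N M : ℕ) : φ.group (N * M) ≤ φ.group N := by
  intro γ hγ
  cases φ with
  | principal =>
    simp only [Family.group, CongruenceSubgroup.Gamma_mem] at hγ ⊢
    obtain ⟨h1, h2, h3, h4⟩ := hγ
    refine ⟨?_, ?_, ?_, ?_⟩
    · have := cast_eq (b := 1) (by simpa using h1)
      simpa using this
    · exact cast_zero h2
    · exact cast_zero h3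
    · have := cast_eq (b := 1) (by simpa using h4)
      simpa using this
  | one =>
    simp only [Family.group, CongruenceSubgroup.Gamma1_mem] at hγ ⊢
    obtain ⟨h1, h2, h3⟩ := hγ
    refine ⟨?_, ?_, ?_⟩
    · have := cast_eq (b := 1) (by simpa using h1)
      simpa using this
    · have := cast_eq (b := 1) (by simpa using h2)
      simpa using this
    · exact cast_zero h3
  | zero =>
    simp only [Family.group, CongruenceSubgroup.Gamma0_mem] at hγ ⊢
    exact cast_zero hγ

theorem up_levels (φ : Family) (t : ℝ) : Up (levels φ t) := by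
  rintro n m hm ⟨hn, μ, h0, h1, hμ⟩
  exact ⟨Nat.mul_pos hn hm, μ, h0, h1, hμ.anti (group_le φ n m)⟩

theorem levels_mono (φ : Family) : Monotone (levels φ) := by
  rintro t t' h N ⟨hN, μ, h0, h1, hμ⟩
  exact ⟨hN, μ, h0, lt_of_lt_of_le h1 h, hμ⟩

/-- The proportion of the exceptional levels for the weights `N ^ (-s)`. -/
noncomputable def proportion (S : Set ℕ) (s : ℝ) : ℝ :=
  (∑' N : ℕ, S.indicator (fun N : ℕ => (N : ℝ) ^ (-s)) N) / ∑' N : ℕ, (N : ℝ) ^ (-s)

theorem proportion_eq (S : Set ℕ) (s : ℝ) : proportion S s = P S s := by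
  unfold proportion P ser
  rw [Set.indicator_univ]

/-- The multiples of the elements of `A`. -/
def multiples (A : Set ℕ) : Set ℕ := {N | ∃ a ∈ A, a ∣ N ∧ 1 ≤ N}

theorem count_ge {S : Set ℕ} (hS : Up S) {N : ℕ} (hN : N ∈ S) (hN1 : 1 ≤ N) (X : ℕ) :
    X / N ≤ Nat.card {n : ℕ // n ∈ S ∧ 1 ≤ n ∧ n ≤ X} := by
  have hfin : Finite {n : ℕ // n ∈ S ∧ 1 ≤ n ∧ n ≤ X} :=
    Finite.of_injective (β := Fin (X + 1)) (fun n => ⟨n.1, by have := n.2.2.2; omega⟩)
      (fun a b h => Subtype.ext (by simpa using h))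
  have := Nat.card_le_card_of_injective
    (fun i : Fin (X / N) => (⟨N * (i.1 + 1), hS N (i.1 + 1) (by omega) hN,
      Nat.mul_pos hN1 (by omega), by
        have h1 : i.1 + 1 ≤ X / N := i.2
        calc N * (i.1 + 1) ≤ N * (X / N) := Nat.mul_le_mul_left _ h1
          _ ≤ X := Nat.mul_div_le X N⟩ : {n : ℕ // n ∈ S ∧ 1 ≤ n ∧ n ≤ X}))
    (fun a b h => by
      have h1 : N * (a.1 + 1) = N * (b.1 + 1) := congrArg Subtype.val h
      have h2 := Nat.eq_of_mul_eq_mul_left hN1 h1
      exact Fin.ext (by omega))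
  simpa using this

/-- **The distribution of the levels with small eigenvalues.** -/
theorem result :
    (∀ φ : Family, ∃ F : ℝ → ℝ,
      -- the proportions increase to the analytic density `F(t)`
      (∀ t : ℝ, AntitoneOn (proportion (levels φ t)) (Set.Ioi 1) ∧
        Tendsto (proportion (levels φ t)) (𝓝[>] 1) (𝓝 (F t)) ∧
        -- approximation by finitely many levels
        (∀ ε : ℝ, 0 < ε → ∃ A : Finset ℕ, (A : Set ℕ) ⊆ levels φ t ∧
          multiples A ⊆ levels φ t ∧ ∃ δ : ℝ, F t - ε ≤ δ ∧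
            Tendsto (proportion (multiples A)) (𝓝[>] 1) (𝓝 δ)) ∧
        -- lower bounds
        (∀ N ∈ levels φ t, 1 / (N : ℝ) ≤ F t ∧
          ∀ X : ℕ, X / N ≤ Nat.card {n : ℕ // n ∈ levels φ t ∧ 1 ≤ n ∧ n ≤ X}) ∧
        (F t = 0 ↔ levels φ t = ∅)) ∧
      -- `F` is a distribution function
      (∀ t, F t ∈ Set.Icc 0 1) ∧ Monotone F ∧ (∀ t, Tendsto F (𝓝[<] t) (𝓝 (F t)))) ∧
    -- the conjecture of Selberg
    (SelbergConjecture ↔ levels .principal (1 / 4) = ∅) ∧
    (SelbergConjecture ↔ Tendsto (proportion (levels .principal (1 / 4))) (𝓝[>] 1) (𝓝 0)) ∧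
    (SelbergConjecture ↔ ∀ c : ℝ, 0 < c → ∀ X₀ : ℕ, ∃ X : ℕ, X₀ ≤ X ∧
      (Nat.card {n : ℕ // n ∈ levels .principal (1 / 4) ∧ 1 ≤ n ∧ n ≤ X} : ℝ) < c * X) := by
  have hD0 : ∀ (φ : Family) (t : ℝ) (N : ℕ), N ∈ levels φ t → 1 / (N : ℝ) ≤ D (levels φ t) := by
    classical
    intro φ t N hN
    refine (D_multiples hN.1).trans ?_
    have hsub : {M : ℕ | N ∣ M} ⊆ levels φ t ∪ {0} := by
      rintro M ⟨m, rfl⟩
      rcases Nat.eq_zero_or_pos m with h | h
      · right; simp [h]
      · left; exact up_levels φ t N m h hN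
    refine (D_mono hsub).trans (D_le fun s hs => ?_)
    refine le_trans (le_of_eq ?_) (P_le_D _ hs)
    unfold P
    congr 1
    unfold ser
    refine tsum_congr fun n => ?_
    rcases Nat.eq_zero_or_pos n with h | h
    · subst h
      have h0 : ((0 : ℕ) : ℝ) ^ (-s) = 0 := by
        rw [Nat.cast_zero, Real.zero_rpow (by linarith)]
      simp only [Set.indicator_apply, h0, ite_self]
    · have h1 : (n ∈ levels φ t ∪ {0}) ↔ n ∈ levels φ t := by
        constructor
        · rintro (h2 | h2)
          · exact h2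
          · simp only [Set.mem_singleton_iff] at h2; omega
        · exact Or.inl
      simp only [Set.indicator_apply, h1]
  have hzero : ∀ (φ : Family) (t : ℝ), D (levels φ t) = 0 ↔ levels φ t = ∅ := by
    intro φ t
    constructor
    · intro h
      rw [Set.eq_empty_iff_forall_notMem]
      intro N hN
      have h1 := hD0 φ t N hN
      rw [h] at h1
      have h2 : (0 : ℝ) < 1 / (N : ℝ) := by
        have : (0 : ℝ) < N := by exact_mod_cast hN.1
        positivity
      linarith
    · intro h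
      rw [h]
      refine le_antisymm (D_le fun s _ => ?_) (D_nonneg _)
      simp [P, ser]
  have hlim : ∀ S : Set ℕ, Up S → Tendsto (proportion S) (𝓝[>] 1) (𝓝 (D S)) := by
    intro S hS
    exact (tendsto_D hS).congr fun s => (proportion_eq S s).symm
  have hupm : ∀ A : Set ℕ, Up (multiples A) := by
    rintro A n m hm ⟨a, ha, h1, h2⟩
    exact ⟨a, ha, h1.mul_right m, Nat.mul_pos h2 hm⟩
  have hSel : SelbergConjecture ↔ levels .principal (1 / 4) = ∅ := by
    rw [Set.eq_empty_iff_forall_notMem]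
    constructor
    · rintro h N ⟨hN, μ, h0, h1, hμ⟩
      exact h _ ⟨N, hN, le_rfl⟩ μ h0 h1 hμ
    · rintro h Γ ⟨N, hN, hle⟩ μ h0 h1 hμ
      exact h N ⟨hN, μ, h0, h1, hμ.anti hle⟩
  refine ⟨fun φ => ⟨fun t => D (levels φ t), fun t => ⟨?_, hlim _ (up_levels φ t), ?_, ?_, hzero φ t⟩,
    fun t => ⟨D_nonneg _, D_le_one _⟩, fun t t' h => D_mono (levels_mono φ h), fun t => ?_⟩,
    hSel, ?_, ?_⟩
  · intro s' hs' s hs h
    rw [proportion_eq, proportion_eq]
    exact P_anti (up_levels φ t) hs' h
  · intro ε hε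
    -- finitely many levels
    have hmono : Monotone fun k : ℕ => multiples (levels φ t ∩ {N | N ≤ k}) := by
      rintro k l hkl N ⟨a, ⟨ha, ha2⟩, h1, h2⟩
      exact ⟨a, ⟨ha, le_trans ha2 hkl⟩, h1, h2⟩
    have hU : (⋃ k : ℕ, multiples (levels φ t ∩ {N | N ≤ k})) = levels φ t := by
      ext N
      rw [Set.mem_iUnion]
      constructor
      · rintro ⟨k, a, ⟨ha, -⟩, ⟨m, rfl⟩, h2⟩
        exact up_levels φ t a m (Nat.pos_of_ne_zero fun h => by simp [h] at h2) ha
      · intro hN
        exact ⟨N, N, ⟨hN, le_refl N⟩, dvd_rfl, hN.1⟩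
    have h1 := D_iUnion _ hmono
    rw [hU] at h1
    obtain ⟨k, hk⟩ := (h1.eventually (eventually_ge_nhds (sub_lt_self _ hε))).exists
    have hfin : (levels φ t ∩ {N | N ≤ k}).Finite := (Set.finite_Iic k).subset fun N hN => hN.2
    refine ⟨hfin.toFinset, ?_, ?_, D (multiples (levels φ t ∩ {N | N ≤ k})), hk, ?_⟩
    · rw [Set.Finite.coe_toFinset]; exact Set.inter_subset_left
    · rw [Set.Finite.coe_toFinset]
      intro N hN
      rw [← hU]
      exact Set.mem_iUnion.2 ⟨k, hN⟩
    · rw [Set.Finite.coe_toFinset]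
      exact hlim _ (hupm _)
  · intro N hN
    exact ⟨hD0 φ t N hN, fun X => count_ge (up_levels φ t) hN hN.1 X⟩
  · -- continuity from the left
    have hm : Monotone fun t => D (levels φ t) := fun t t' h => D_mono (levels_mono φ h)
    rw [tendsto_order]
    constructor
    · intro a ha
      -- a sequence increasing to `t`
      have hmono : Monotone fun k : ℕ => levels φ (t - 1 / ((k : ℝ) + 1)) := by
        intro k l hkl
        refine levels_mono φ ?_
        have : 1 / ((l : ℝ) + 1) ≤ 1 / ((k : ℝ) + 1) := by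
          apply one_div_le_one_div_of_le
          · positivity
          · have : (k : ℝ) ≤ l := by exact_mod_cast hkl
            linarith
        linarith
      have hU : (⋃ k : ℕ, levels φ (t - 1 / ((k : ℝ) + 1))) = levels φ t := by
        ext N
        rw [Set.mem_iUnion]
        constructor
        · rintro ⟨k, hk⟩
          refine levels_mono φ ?_ hk
          have : 0 < 1 / ((k : ℝ) + 1) := by positivity
          linarith
        · rintro ⟨hN, μ, h0, h1, hμ⟩
          obtain ⟨k, hk⟩ := exists_nat_one_div_lt (sub_pos.2 h1)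
          exact ⟨k, hN, μ, h0, by linarith, hμ⟩
      have h1 := D_iUnion _ hmono
      rw [hU] at h1
      obtain ⟨k, hk⟩ := (h1.eventually (eventually_gt_nhds ha)).exists
      have h2 : t - 1 / ((k : ℝ) + 1) < t := by
        have : 0 < 1 / ((k : ℝ) + 1) := by positivity
        linarith
      filter_upwards [Ioo_mem_nhdsLT h2] with u hu
      exact lt_of_lt_of_le hk (hm hu.1.le)
    · intro a ha
      filter_upwards [self_mem_nhdsWithin] with u hu
      exact lt_of_le_of_lt (hm (le_of_lt hu)) ha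
  · rw [hSel, ← hzero .principal (1 / 4)]
    have h1 := hlim _ (up_levels .principal (1 / 4))
    constructor
    · intro h; rw [h] at h1; exact h1
    · intro h; exact tendsto_nhds_unique h1 h
  · rw [hSel]
    constructor
    · intro h c hc X₀
      refine ⟨X₀ + 1, by omega, ?_⟩
      have : IsEmpty {n : ℕ // n ∈ levels .principal (1 / 4) ∧ 1 ≤ n ∧ n ≤ X₀ + 1} := by
        constructor
        rintro ⟨n, hn, -⟩
        rw [h] at hn
        exact hn
      rw [Nat.card_of_isEmpty, Nat.cast_zero]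
      positivity
    · intro h
      rw [Set.eq_empty_iff_forall_notMem]
      intro N hN
      have hN0 : (0 : ℝ) < N := by exact_mod_cast hN.1
      obtain ⟨X, h1, h2⟩ := h (1 / (2 * N)) (by positivity) (2 * N)
      have h3 := count_ge (up_levels .principal (1 / 4)) hN hN.1 X
      have h4 : ((X / N : ℕ) : ℝ) < 1 / (2 * N) * X := lt_of_le_of_lt (by exact_mod_cast h3) h2
      have h5 : (X : ℝ) < N * ((X / N : ℕ) + 1) := by
        have := Nat.lt_mul_div_succ X hN.1
        exact_mod_cast this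
      have h6 : (2 * N : ℝ) ≤ X := by exact_mod_cast h1
      have h7 : 1 / (2 * (N : ℝ)) * X * N = X / 2 := by field_simp
      nlinarith

end Pool.Agent.Results.MP_a812b2_nt.LogarithmicDistribution
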