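import Pool.Agent.X309.SZ2

/-!
# The smallest eigenvalue of a congruence subgroup from sums over closed geodesics

Let `Γ ≤ SL_2(ℤ)` be a congruence subgroup, `ℓ(P)` the lengths of the primitive closed geodesics `P` of
`Γ \ ℍ` (the primitive hyperbolic conjugacy classes of `Γ / ±1`), and for `T > 0`

`D(T) = ∑_P ∑_{k ≥ 1} 1 / (2 k sinh(k ℓ(P) / 2) Γ(1 + k ℓ(P) / T)) - ∑_p ∑_{k ≥ 1} 1 / (k p^{k/2} Γ(1 + k log p / T))`,

`p` the primes; both series converge (`1 / Γ(1 + u)` decays faster than every `e^{-Cu}`). So `D(T)` compares the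
closed geodesics of length up to about `e^T` with the prime numbers. There is the following dichotomy.

Theorem.
* If `λ₁(Γ \ ℍ) ≥ 1/4`, then `D(T) = m log T + c + O(1 / T)`, `m` the order of the zeta function of Selberg at
  `s = 1/2`.
* If not, let `λ₁ ∈ (0, 1/4)` be the least positive eigenvalue and `y₁ = √(1/4 - λ₁)`. Then
  `D(T) / G(y₁ T)` tends to the multiplicity of `λ₁`, `G(y) = ∫_0^∞ (e^{yu} - 1) / (u Γ(1 + u)) du`, and
  `log log D(T) / T → y₁`, that is: `λ₁ = 1/4 - (lim log log D(T) / T)²`.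

In particular the conjecture of Selberg holds for `Γ` if and only if `D(T) = O(log T)`, and as soon as it fails
`D(T)` grows like a double exponential, `D(T) ≥ exp (exp (y T))` for each `y < y₁` and large `T`.
(The prime geodesic theorem for `Γ`, a sum over `ℓ(P) ≤ log x` with the classical error term `O(x^{3/4})`, only
shows eigenvalues below `3/16`, and there are none.)

Of the theory of Selberg we use: the product `Z(s) = ∏_P ∏_{k ≥ 0} (1 - N(P)^{-s-k})` converges absolutely for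
`Re s > 1`, has a meromorphic continuation, with a simple zero at `s = 1`, and at `σ ∈ (1/2, 1)` its order is the
dimension of the space of eigenfunctions for `σ (1 - σ)`, which is finite (`IsSelbergZeta`).

Proof: `1 / Γ(1 + t)` is a contour integral of `exp (exp z) e^{-tz}` along the boundary of a half strip, so
`D(T)` is such an integral of `log (Z(1/2 + z/T) ζ(1/2 + z/T))`, where the zero of `Z` and the pole of `ζ` at
`s = 1` cancel, and `ζ` has no zeros in `(0, 1)`. See `Pool.Agent.W189.LC` and `Pool.Agent.X309.SZ2`.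
-/

set_option autoImplicit false

open Filter Topology Matrix

namespace Pool.Agent.Results.MP_a812b2_nt.SmallestEigenvalue

/-- A smooth, `Γ`-invariant function on the upper half plane, square integrable modulo `Γ`, with
`-y² (f_xx + f_yy) = μ f` (the notions of Q1). -/
structure IsEigenfunction (Γ : Subgroup (SpecialLinearGroup (Fin 2) ℤ)) (μ : ℝ) (f : ℂ → ℂ) :
    Prop where
  smooth : ContDiffOn ℝ (⊤ : ℕ∞) f {w : ℂ | 0 < w.im}
  invariant : ∀ γ ∈ Γ, ∀ z : UpperHalfPlane, f ((γ • z : UpperHalfPlane) : ℂ) = f (z : ℂ)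
  eigen : ∀ z : UpperHalfPlane,
    -((z.im : ℂ) ^ 2) *
      (deriv (fun s : ℝ => deriv (fun t : ℝ => f ((t : ℂ) + (z.im : ℂ) * Complex.I)) s) z.re
        + deriv (fun s : ℝ => deriv (fun t : ℝ => f ((z.re : ℂ) + (t : ℂ) * Complex.I)) s) z.im)
      = (μ : ℂ) * f (z : ℂ)
  integrable : ∀ γ : SpecialLinearGroup (Fin 2) ℤ,
    MeasureTheory.IntegrableOn (fun w : ℂ => ‖f w‖ ^ 2 / w.im ^ 2)
      ((fun z : UpperHalfPlane => ((γ • z : UpperHalfPlane) : ℂ)) '' ModularGroup.fd)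

/-- The space of the eigenfunctions for `μ`, as functions on the upper half plane. -/
noncomputable def eigenspace (Γ : Subgroup (SpecialLinearGroup (Fin 2) ℤ)) (μ : ℝ) :
    Submodule ℂ (UpperHalfPlane → ℂ) :=
  Submodule.span ℂ {g | ∃ f : ℂ → ℂ, IsEigenfunction Γ μ f ∧ ∀ z : UpperHalfPlane, g z = f z}

/-- `g ∈ Γ` is hyperbolic and, up to sign, not a proper power in `Γ`. -/
def IsPrimitive (Γ : Subgroup (SpecialLinearGroup (Fin 2) ℤ))
    (g : SpecialLinearGroup (Fin 2) ℤ) : Prop :=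
  g ∈ Γ ∧ 2 < |(g : Matrix (Fin 2) (Fin 2) ℤ).trace| ∧
    ∀ h ∈ Γ, ∀ k : ℕ, 2 ≤ k → g ≠ h ^ k ∧ g ≠ -h ^ k

/-- `g` and `g'` are conjugate in `Γ` up to sign. -/
def conj (Γ : Subgroup (SpecialLinearGroup (Fin 2) ℤ)) :
    Setoid {g : SpecialLinearGroup (Fin 2) ℤ // IsPrimitive Γ g} where
  r g g' := ∃ h ∈ Γ, h * g.1 * h⁻¹ = g'.1 ∨ h * g.1 * h⁻¹ = -g'.1
  iseqv := by
    refine ⟨fun g => ⟨1, Γ.one_mem, Or.inl (by simp)⟩, ?_, ?_⟩
    · rintro g g' ⟨h, hh, h1⟩
      refine ⟨h⁻¹, Γ.inv_mem hh, ?_⟩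
      rcases h1 with h1 | h1
      · left
        rw [← h1]; group
      · right
        have h2 : g'.1 = -(h * g.1 * h⁻¹) := by rw [h1, neg_neg]
        rw [h2, mul_neg, neg_mul]
        congr 1
        group
    · rintro g g' g'' ⟨h, hh, h1⟩ ⟨k, hk, h2⟩
      refine ⟨k * h, Γ.mul_mem hk hh, ?_⟩
      have e : k * h * g.1 * (k * h)⁻¹ = k * (h * g.1 * h⁻¹) * k⁻¹ := by group
      rw [e]
      rcases h1 with h1 | h1 <;> rcases h2 with h2 | h2
      · left; rw [h1, h2]
      · right; rw [h1, h2]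
      · right; rw [h1, mul_neg, neg_mul, h2]
      · left; rw [h1, mul_neg, neg_mul, h2, neg_neg]

/-- The primitive closed geodesics of `Γ \ ℍ`: the primitive hyperbolic conjugacy classes of
`Γ / ±1`. -/
def Geodesic (Γ : Subgroup (SpecialLinearGroup (Fin 2) ℤ)) : Type := Quotient (conj Γ)

/-- The norm `((|t| + √(t² - 4)) / 2)²`, `t` the trace. -/
noncomputable def geoNorm {Γ : Subgroup (SpecialLinearGroup (Fin 2) ℤ)} (P : Geodesic Γ) : ℝ :=
  ((|(((Quotient.out P).1 : Matrix (Fin 2) (Fin 2) ℤ).trace : ℝ)| +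
    √((((Quotient.out P).1 : Matrix (Fin 2) (Fin 2) ℤ).trace : ℝ) ^ 2 - 4)) / 2) ^ 2

/-- `Z` is the zeta function of Selberg of `Γ`, and has the properties found by Selberg. -/
structure IsSelbergZeta (Γ : Subgroup (SpecialLinearGroup (Fin 2) ℤ)) (Z : ℂ → ℂ) : Prop where
  summable : ∀ σ : ℝ, 1 < σ → Summable fun P : Geodesic Γ => geoNorm P ^ (-σ)
  prod : ∀ s : ℂ, 1 < s.re →
    HasProd (fun x : Geodesic Γ × ℕ => 1 - (geoNorm x.1 : ℂ) ^ (-(s + x.2))) (Z s)
  mero : ∀ s : ℂ, MeromorphicAt Z s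
  one : meromorphicOrderAt Z 1 = 1
  small : ∀ σ : ℝ, 1 / 2 < σ → σ < 1 → FiniteDimensional ℂ (eigenspace Γ (σ * (1 - σ))) ∧
    meromorphicOrderAt Z (σ : ℂ) =
      ((Module.finrank ℂ (eigenspace Γ (σ * (1 - σ))) : ℤ) : WithTop ℤ)

/-- The conjecture of Selberg for `Γ`. -/
def SelbergFor (Γ : Subgroup (SpecialLinearGroup (Fin 2) ℤ)) : Prop :=
  ∀ (f : ℂ → ℂ) (μ : ℝ), 0 < μ → μ < 1 / 4 → IsEigenfunction Γ μ f →
    ∀ z : UpperHalfPlane, f (z : ℂ) = 0

variable {Γ : Subgroup (SpecialLinearGroup (Fin 2) ℤ)} {Z : ℂ → ℂ}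

instance : Countable (Geodesic Γ) := by
  have : Countable (SpecialLinearGroup (Fin 2) ℤ) := by
    have h : Countable (Matrix (Fin 2) (Fin 2) ℤ) := inferInstanceAs (Countable (Fin 2 → Fin 2 → ℤ))
    exact Subtype.countable
  unfold Geodesic
  infer_instance

theorem two_le (P : Geodesic Γ) : 2 ≤ geoNorm P := by
  unfold geoNorm
  set g := Quotient.out P with hg
  have h1 : 2 < |(g.1 : Matrix (Fin 2) (Fin 2) ℤ).trace| := g.2.2.1
  have h2 : (3 : ℝ) ≤ |((g.1 : Matrix (Fin 2) (Fin 2) ℤ).trace : ℝ)| := by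
    have h3 : (3 : ℤ) ≤ |(g.1 : Matrix (Fin 2) (Fin 2) ℤ).trace| := by omega
    exact_mod_cast h3
  have h4 : 0 ≤ √(((g.1 : Matrix (Fin 2) (Fin 2) ℤ).trace : ℝ) ^ 2 - 4) := Real.sqrt_nonneg _
  nlinarith

theorem geo (h : IsSelbergZeta Γ Z) : Pool.Agent.X309.SZ.Geo (geoNorm (Γ := Γ)) where
  cnt := inferInstance
  two_le := two_le
  sum := h.summable

theorem data (h : IsSelbergZeta Γ Z) :
    Pool.Agent.X309.RM2.HD (Pool.Agent.X309.SZ.len (geoNorm (Γ := Γ)))
      (Pool.Agent.X309.SZ.cZ (geoNorm (Γ := Γ))) (fun w => Z (1 / 2 + w)) where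
  cnt := inferInstance
  lam_nonneg := fun x => ((geo h).len_pos x).le
  sum := fun σ hσ => (geo h).summable hσ
  mero := fun x _ _ => by
    have h3 : AnalyticAt ℂ (fun w : ℂ => (1 / 2 : ℂ) + w) (x : ℂ) := by fun_prop
    exact (h.mero _).comp_analyticAt h3
  eq := fun w hw => by
    have h1 := h.prod (1 / 2 + w) (by
      have : ((1 / 2 : ℂ) + w).re = 1 / 2 + w.re := by simp
      rw [this]; linarith)
    have h2 := (geo h).hasProd hw
    have e : (fun x : Geodesic Γ × ℕ => 1 - (geoNorm x.1 : ℂ) ^ (-((1 / 2 + w) + x.2))) =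
        fun x : Geodesic Γ × ℕ => 1 - Complex.exp (-((1 / 2 + w) * Real.log (geoNorm x.1))) *
          (((geoNorm x.1)⁻¹ : ℝ) : ℂ) ^ x.2 := by
      funext x
      have h0 := (geo h).pos x.1
      have h0c : (geoNorm x.1 : ℂ) ≠ 0 := by exact_mod_cast h0.ne'
      rw [neg_add, Complex.cpow_add _ _ h0c, Complex.cpow_neg _ (x.2 : ℂ), Complex.cpow_natCast,
        Complex.cpow_def_of_ne_zero h0c, ← Complex.ofReal_log h0.le]
      push_cast
      rw [inv_pow]
      congr 3
      ring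
    rw [e] at h1
    exact h1.unique h2

theorem order_shift (F : ℂ → ℂ) (x : ℝ) :
    meromorphicOrderAt (fun w => F (1 / 2 + w)) (x : ℂ) =
      meromorphicOrderAt F ((1 / 2 + x : ℝ) : ℂ) := by
  have h1 : (fun w : ℂ => F (1 / 2 + w)) = F ∘ (· + (1 / 2 : ℂ)) := by
    funext w; simp [add_comm]
  rw [h1, meromorphicOrderAt_comp_add_const_eq_meromorphicOrderAt]
  push_cast
  rw [add_comm]

theorem coeff_shift0 (F : ℂ → ℂ) :
    meromorphicTrailingCoeffAt (fun w => F (1 / 2 + w)) 0 =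
      meromorphicTrailingCoeffAt F (1 / 2) := by
  have h1 : (fun w : ℂ => F (1 / 2 + w)) = F ∘ (· + (1 / 2 : ℂ)) := by
    funext w; simp [add_comm]
  rw [h1, meromorphicTrailingCoeffAt_comp_add_const_eq_meromorphicTrailingCoeffAt]
  simp

/-- order at a point of `(0, 1/2)` -/
theorem order_small (h : IsSelbergZeta Γ Z) {x : ℝ} (h0 : 0 < x) (h1 : x < 1 / 2) :
    FiniteDimensional ℂ (eigenspace Γ (1 / 4 - x ^ 2)) ∧
    meromorphicOrderAt (fun w => Z (1 / 2 + w)) (x : ℂ) =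
      ((Module.finrank ℂ (eigenspace Γ (1 / 4 - x ^ 2)) : ℤ) : WithTop ℤ) := by
  have h2 := h.small (1 / 2 + x) (by linarith) (by linarith)
  have e : (1 / 2 + x) * (1 - (1 / 2 + x)) = 1 / 4 - x ^ 2 := by ring
  rw [e] at h2
  refine ⟨h2.1, ?_⟩
  rw [order_shift]
  exact h2.2

theorem order_half (h : IsSelbergZeta Γ Z) :
    meromorphicOrderAt (fun w => Z (1 / 2 + w)) ((1 / 2 : ℝ) : ℂ) = 1 := by
  rw [order_shift]
  have e : ((1 / 2 + 1 / 2 : ℝ) : ℂ) = 1 := by norm_num
  rw [e]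
  exact h.one

theorem bij : Set.BijOn (fun x : ℝ => 1 / 4 - x ^ 2) (Set.Ioo (0 : ℝ) (1 / 2))
    (Set.Ioo (0 : ℝ) (1 / 4)) := by
  refine ⟨?_, ?_, ?_⟩
  · rintro x ⟨h1, h2⟩
    refine ⟨?_, ?_⟩
    · simp only
      nlinarith
    · simp only
      nlinarith
  · rintro x ⟨h1, h2⟩ y ⟨h3, h4⟩ h
    simp only at h
    nlinarith [mul_self_eq_mul_self_iff (a := x) (b := y)]
  · rintro μ ⟨h1, h2⟩
    refine ⟨√(1 / 4 - μ), ⟨Real.sqrt_pos.2 (by linarith), ?_⟩, ?_⟩
    · rw [Real.sqrt_lt' (by norm_num)]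
      linarith
    · simp only
      rw [Real.sq_sqrt (by linarith)]
      ring

/-- the support of the dimensions is finite -/
theorem finite_exc (h : IsSelbergZeta Γ Z) :
    {μ : ℝ | μ ∈ Set.Ioo (0 : ℝ) (1 / 4) ∧ eigenspace Γ μ ≠ ⊥}.Finite := by
  refine ((data h).finite_real.image fun x : ℝ => 1 / 4 - x ^ 2).subset ?_
  rintro μ ⟨hμ, hne⟩
  obtain ⟨x, hx, rfl⟩ := bij.surjOn hμ
  refine ⟨x, ⟨hx.1, ?_⟩, rfl⟩
  obtain ⟨h1, h2⟩ := order_small h hx.1 hx.2
  rw [h2]
  intro h3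
  have h4 : Module.finrank ℂ (eigenspace Γ (1 / 4 - x ^ 2)) = 0 := by exact_mod_cast h3
  exact hne (Submodule.finrank_eq_zero.1 h4)


/-! ### the combined data -/

open Pool.Agent.X309.RM2 (HD hdR lamR cR)

/-- the sum over the closed geodesics -/
noncomputable def geoSum (Γ : Subgroup (SpecialLinearGroup (Fin 2) ℤ)) (T : ℝ) : ℝ :=
  ∑' x : Geodesic Γ × ℕ, 1 / (2 * (x.2 + 1) * Real.sinh ((x.2 + 1) * Real.log (geoNorm x.1) / 2) *
    Real.Gamma (1 + (x.2 + 1) * Real.log (geoNorm x.1) / T))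

/-- the sum over the primes -/
noncomputable def primeSum (T : ℝ) : ℝ :=
  ∑' x : Nat.Primes × ℕ, 1 / ((x.2 + 1) * √((x.1 : ℕ) : ℝ) ^ (x.2 + 1) *
    Real.Gamma (1 + (x.2 + 1) * Real.log ((x.1 : ℕ) : ℝ) / T))

/-- `D(T)` -/
noncomputable def D (Γ : Subgroup (SpecialLinearGroup (Fin 2) ℤ)) (T : ℝ) : ℝ :=
  geoSum Γ T - primeSum T

/-- `G(y) = ∫_0^∞ (e^{yu} - 1) / (u Γ(1 + u)) du` -/
noncomputable def G (y : ℝ) : ℝ :=
  ∫ u in Set.Ioi (0 : ℝ), (Real.exp (y * u) - 1) / (u * Real.Gamma (1 + u))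

/-- `μ ∈ (0, 1/4)` is an eigenvalue. -/
def IsExceptional (Γ : Subgroup (SpecialLinearGroup (Fin 2) ℤ)) (μ : ℝ) : Prop :=
  0 < μ ∧ μ < 1 / 4 ∧ eigenspace Γ μ ≠ ⊥

theorem geoSum_term (T : ℝ) (x : Geodesic Γ × ℕ) :
    1 / (2 * ((x.2 : ℝ) + 1) * Real.sinh (((x.2 : ℝ) + 1) * Real.log (geoNorm x.1) / 2) *
      Real.Gamma (1 + ((x.2 : ℝ) + 1) * Real.log (geoNorm x.1) / T)) =
    -(Pool.Agent.X309.SZ.cZ (geoNorm (Γ := Γ)) x *
      Pool.Agent.W189.ML.om (Pool.Agent.X309.SZ.len (geoNorm (Γ := Γ)) x / T)) := by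
  unfold Pool.Agent.X309.SZ.cZ Pool.Agent.W189.ML.om Pool.Agent.X309.SZ.len
  simp only [div_eq_mul_inv, mul_inv]
  ring

theorem primeSum_term (T : ℝ) (x : Nat.Primes × ℕ) :
    1 / (((x.2 : ℝ) + 1) * √((x.1 : ℕ) : ℝ) ^ (x.2 + 1) *
      Real.Gamma (1 + ((x.2 : ℝ) + 1) * Real.log ((x.1 : ℕ) : ℝ) / T)) =
    cR x * Pool.Agent.W189.ML.om (lamR x / T) := by
  unfold cR Pool.Agent.W189.ML.om lamR
  simp only [div_eq_mul_inv, mul_inv]
  ring

/-- the data of `Z ζ` -/
theorem data2 (h : IsSelbergZeta Γ Z) :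
    HD (Sum.elim (Pool.Agent.X309.SZ.len (geoNorm (Γ := Γ))) lamR)
      (Sum.elim (Pool.Agent.X309.SZ.cZ (geoNorm (Γ := Γ))) cR)
      (fun w => Z (1 / 2 + w) * riemannZeta (1 / 2 + w)) :=
  (data h).mul hdR

theorem D_eq (h : IsSelbergZeta Γ Z) {T : ℝ} (hT : 0 < T) :
    D Γ T = -Pool.Agent.W189.ML.mean (Sum.elim (Pool.Agent.X309.SZ.len (geoNorm (Γ := Γ))) lamR)
      (Sum.elim (Pool.Agent.X309.SZ.cZ (geoNorm (Γ := Γ))) cR) T := by
  rw [Pool.Agent.X309.RM2.mean_sum (data h) hdR hT]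
  have h1 : geoSum Γ T = -Pool.Agent.W189.ML.mean (Pool.Agent.X309.SZ.len (geoNorm (Γ := Γ)))
      (Pool.Agent.X309.SZ.cZ (geoNorm (Γ := Γ))) T := by
    unfold geoSum Pool.Agent.W189.ML.mean
    rw [← tsum_neg]
    exact tsum_congr fun x => geoSum_term T x
  have h2 : primeSum T = Pool.Agent.W189.ML.mean lamR cR T := by
    unfold primeSum Pool.Agent.W189.ML.mean
    exact tsum_congr fun x => primeSum_term T x
  unfold D
  rw [h1, h2]
  ring

theorem zeta_order {x : ℝ} (h0 : 0 ≤ x) (h1 : x < 1 / 2) :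
    meromorphicOrderAt (fun w => riemannZeta (1 / 2 + w)) (x : ℂ) = 0 := by
  rw [order_shift]
  have hne : (((1 / 2 + x : ℝ)) : ℂ) ≠ 1 := by
    intro h
    have : 1 / 2 + x = 1 := by exact_mod_cast h
    linarith
  have ha : AnalyticAt ℂ riemannZeta ((1 / 2 + x : ℝ) : ℂ) := by
    have hd : DifferentiableOn ℂ riemannZeta {s | s ≠ 1} := fun s hs =>
      (differentiableAt_riemannZeta hs).differentiableWithinAt
    exact hd.analyticAt (isOpen_ne.mem_nhds hne)
  rw [ha.meromorphicOrderAt_eq, ha.analyticOrderAt_eq_zero.2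
    (Pool.Agent.X309.RM2.zeta_real_ne (by linarith) (by linarith))]
  rfl

theorem order2_small (h : IsSelbergZeta Γ Z) {x : ℝ} (h0 : 0 < x) (h1 : x < 1 / 2) :
    meromorphicOrderAt (fun w => Z (1 / 2 + w) * riemannZeta (1 / 2 + w)) (x : ℂ) =
      ((Module.finrank ℂ (eigenspace Γ (1 / 4 - x ^ 2)) : ℤ) : WithTop ℤ) := by
  have e := meromorphicOrderAt_mul ((data h).mero x h0.le h1.le) (hdR.mero x h0.le h1.le)
  have e2 : (fun w => Z (1 / 2 + w) * riemannZeta (1 / 2 + w)) =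
      (fun w => Z (1 / 2 + w)) * (fun w => riemannZeta (1 / 2 + w)) := rfl
  rw [e2, e, (order_small h h0 h1).2, zeta_order h0.le h1, add_zero]

theorem order2_half (h : IsSelbergZeta Γ Z) :
    meromorphicOrderAt (fun w => Z (1 / 2 + w) * riemannZeta (1 / 2 + w)) ((1 / 2 : ℝ) : ℂ) = 0 := by
  have e := meromorphicOrderAt_mul ((data h).mero (1 / 2) (by norm_num) le_rfl)
    (hdR.mero (1 / 2) (by norm_num) le_rfl)
  have e2 : (fun w => Z (1 / 2 + w) * riemannZeta (1 / 2 + w)) =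
      (fun w => Z (1 / 2 + w)) * (fun w => riemannZeta (1 / 2 + w)) := rfl
  have e3 : meromorphicOrderAt (fun w => riemannZeta (1 / 2 + w)) ((1 / 2 : ℝ) : ℂ) =
      ((-1 : ℤ) : WithTop ℤ) := by
    rw [order_shift]
    have e4 : ((1 / 2 + 1 / 2 : ℝ) : ℂ) = 1 := by norm_num
    rw [e4]
    exact Pool.Agent.TH958.An.zeta_order_one
  rw [e2, e, order_half h, e3]
  rfl

theorem order2_zero (h : IsSelbergZeta Γ Z) :
    meromorphicOrderAt (fun w => Z (1 / 2 + w) * riemannZeta (1 / 2 + w)) 0 =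
      meromorphicOrderAt Z (1 / 2) := by
  have e := meromorphicOrderAt_mul ((data h).mero 0 le_rfl (by norm_num))
    (hdR.mero 0 le_rfl (by norm_num))
  have e2 : (fun w => Z (1 / 2 + w) * riemannZeta (1 / 2 + w)) =
      (fun w => Z (1 / 2 + w)) * (fun w => riemannZeta (1 / 2 + w)) := rfl
  have e3 := zeta_order (x := 0) le_rfl (by norm_num)
  rw [Complex.ofReal_zero] at e e3
  rw [e2, e, e3, add_zero]
  have := order_shift Z 0
  rw [Complex.ofReal_zero] at this
  rw [this]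
  norm_num

theorem selberg_iff : SelbergFor Γ ↔ ∀ μ, ¬ IsExceptional Γ μ := by
  constructor
  · rintro h1 μ ⟨h2, h3, h4⟩
    apply h4
    unfold eigenspace
    rw [Submodule.span_eq_bot]
    rintro g ⟨f, hf, hg⟩
    funext z
    rw [hg z, h1 f μ h2 h3 hf z]
    rfl
  · intro h1 f μ h2 h3 hf z
    have h4 : (fun z : UpperHalfPlane => f z) ∈ eigenspace Γ μ :=
      Submodule.subset_span ⟨f, hf, fun _ => rfl⟩
    have h5 : eigenspace Γ μ = ⊥ := by
      by_contra h6
      exact h1 μ ⟨h2, h3, h6⟩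
    rw [h5, Submodule.mem_bot] at h4
    exact congrFun h4 z

/-- if the conjecture holds for `Γ`: no zeros on the segment -/
theorem regular (h : IsSelbergZeta Γ Z) (hS : SelbergFor Γ) :
    ∀ x ∈ Set.Ioc (0 : ℝ) 1,
      meromorphicOrderAt (fun w => Z (1 / 2 + w) * riemannZeta (1 / 2 + w)) (x : ℂ) = 0 := by
  rintro x ⟨h0, -⟩
  rcases lt_trichotomy x (1 / 2) with h1 | h1 | h1
  · rw [order2_small h h0 h1]
    have h2 : eigenspace Γ (1 / 4 - x ^ 2) = ⊥ := by
      by_contra h3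
      exact selberg_iff.1 hS _ ⟨by nlinarith, by nlinarith, h3⟩
    rw [h2]
    simp
  · rw [h1]
    exact order2_half h
  · exact (data2 h).order_right (by rw [Complex.ofReal_re]; exact h1)

/-- if it fails: the least eigenvalue is a zero, and it is the rightmost one -/
theorem singular (h : IsSelbergZeta Γ Z) (hS : ¬ SelbergFor Γ) :
    ∃ μ : ℝ, IsLeast {ν | IsExceptional Γ ν} μ ∧
      0 < Module.finrank ℂ (eigenspace Γ μ) ∧
      ∃ x₁ : ℝ, 0 ≤ x₁ ∧ x₁ < √(1 / 4 - μ) ∧ ∀ x ∈ Set.Icc x₁ 2, x ≠ √(1 / 4 - μ) →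
        meromorphicOrderAt (fun w => Z (1 / 2 + w) * riemannZeta (1 / 2 + w)) (x : ℂ) = 0 := by
  have h1 : ¬ ∀ x ∈ Set.Ioc (0 : ℝ) 1,
      meromorphicOrderAt (fun w => Z (1 / 2 + w) * riemannZeta (1 / 2 + w)) (x : ℂ) = 0 := by
    intro h2
    apply hS
    rw [selberg_iff]
    rintro μ ⟨h3, h4, h5⟩
    obtain ⟨x, hx, rfl⟩ := bij.surjOn ⟨h3, h4⟩
    have h6 := h2 x ⟨hx.1, by linarith [hx.2]⟩
    rw [order2_small h hx.1 hx.2] at h6
    have h7 : Module.finrank ℂ (eigenspace Γ (1 / 4 - x ^ 2)) = 0 := by exact_mod_cast h6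
    have h8 := (order_small h hx.1 hx.2).1
    exact h5 (Submodule.finrank_eq_zero.1 h7)
  obtain ⟨x₀, x₁, h2, h3, h4, h5, m, hm0, hm, h6⟩ := (data2 h).mdata.rightmost h1
  have hx0 : x₀ < 1 / 2 := by
    rcases lt_trichotomy x₀ (1 / 2) with h7 | h7 | h7
    · exact h7
    · exfalso
      rw [h7, order2_half h] at hm
      exact hm0 (by exact_mod_cast hm.symm)
    · exfalso
      rw [(data2 h).order_right (by rw [Complex.ofReal_re]; exact h7)] at hm
      exact hm0 (by exact_mod_cast hm.symm)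
  rw [order2_small h h2 hx0] at hm
  have hm' : (Module.finrank ℂ (eigenspace Γ (1 / 4 - x₀ ^ 2)) : ℤ) = m := by exact_mod_cast hm
  have hpos : 0 < Module.finrank ℂ (eigenspace Γ (1 / 4 - x₀ ^ 2)) := by
    rcases Nat.eq_zero_or_pos (Module.finrank ℂ (eigenspace Γ (1 / 4 - x₀ ^ 2))) with h7 | h7
    · rw [h7] at hm'
      exact absurd hm'.symm hm0
    · exact h7
  have hsq : √(1 / 4 - (1 / 4 - x₀ ^ 2)) = x₀ := by
    have e : 1 / 4 - (1 / 4 - x₀ ^ 2) = x₀ ^ 2 := by ring
    rw [e, Real.sqrt_sq h2.le]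
  refine ⟨1 / 4 - x₀ ^ 2, ⟨⟨by nlinarith, by nlinarith, ?_⟩, ?_⟩, hpos, x₁, h4, ?_, ?_⟩
  · intro h7
    rw [h7] at hpos
    simp at hpos
  · rintro ν ⟨h7, h8, h9⟩
    obtain ⟨x, hx, rfl⟩ := bij.surjOn ⟨h7, h8⟩
    simp only at h9 ⊢
    by_contra h10
    push Not at h10
    have h11 : x₀ < x := by
      by_contra h12
      push Not at h12
      nlinarith [hx.1]
    have h13 := h6 x ⟨by linarith, by linarith [hx.2]⟩ h11.ne'
    rw [order2_small h hx.1 hx.2] at h13
    have h14 : Module.finrank ℂ (eigenspace Γ (1 / 4 - x ^ 2)) = 0 := by exact_mod_cast h13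
    have h15 := (order_small h hx.1 hx.2).1
    exact h9 (Submodule.finrank_eq_zero.1 h14)
  · rw [hsq]; exact h5
  · rw [hsq]; exact h6

/-- the double logarithm of a function between two double exponentials -/
theorem loglog {f : ℝ → ℝ} {y k : ℝ} (hy : 0 < y) (hk : 0 < k)
    (h1 : Tendsto (fun T => f T / G (y * T)) atTop (𝓝 k))
    (h2 : ∀ z < y, ∀ᶠ T : ℝ in atTop, Real.exp (Real.exp (z * T)) ≤ f T) :
    Tendsto (fun T => Real.log (Real.log (f T)) / T) atTop (𝓝 y) := by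
  rw [tendsto_order]
  constructor
  · intro a ha
    obtain ⟨z, hz1, hz2⟩ := exists_between ha
    filter_upwards [h2 z hz2, eventually_gt_atTop 0] with T h3 h4
    have h5 : Real.exp (z * T) ≤ Real.log (f T) := by
      rw [Real.le_log_iff_exp_le ((Real.exp_pos _).trans_le h3)]
      exact h3
    have h6 : z * T ≤ Real.log (Real.log (f T)) := by
      rw [Real.le_log_iff_exp_le ((Real.exp_pos _).trans_le h5)]
      exact h5
    rw [lt_div_iff₀ h4]
    nlinarith
  · intro b hb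
    -- an upper bound
    have h3 : ∀ᶠ T : ℝ in atTop, f T ≤ (k + 1) * G (y * T) := by
      filter_upwards [h1.eventually (eventually_le_nhds (lt_add_one k)),
        eventually_ge_atTop (5 / y)] with T h4 h5
      have h6 : 5 ≤ y * T := by
        rw [div_le_iff₀ hy] at h5
        linarith
      have h7 : 0 < G (y * T) := (Real.exp_pos _).trans_le (Pool.Agent.W189.ML.grow_ge h6)
      rwa [div_le_iff₀ h7] at h4
    set δ : ℝ := (b - y) / 2 with hδ
    have hδ0 : 0 < δ := by rw [hδ]; linarith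
    have h8 : ∀ᶠ T : ℝ in atTop, (k + 1) * G (y * T) ≤ Real.exp (Real.exp ((y + δ) * T)) := by
      have e1 : ∀ᶠ T : ℝ in atTop, (k + 1) * 2 ≤ Real.exp T := by
        exact Real.tendsto_exp_atTop.eventually_ge_atTop _
      have e2 : ∀ᶠ T : ℝ in atTop, (1 : ℝ) + 1 ≤ δ * T := by
        have : Tendsto (fun T : ℝ => δ * T) atTop atTop := tendsto_id.const_mul_atTop hδ0
        exact this.eventually_ge_atTop _
      have e3 : ∀ᶠ T : ℝ in atTop, (1 + y) * T + Real.exp (y * T + 1) ≤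
          Real.exp ((y + δ) * T) := by
        have g1 : Tendsto (fun T : ℝ => Real.exp (δ * T)) atTop atTop := by
          have : Tendsto (fun T : ℝ => δ * T) atTop atTop := tendsto_id.const_mul_atTop hδ0
          exact Real.tendsto_exp_atTop.comp this
        filter_upwards [g1.eventually_ge_atTop ((1 + y) / y + Real.exp 1),
          eventually_ge_atTop 0] with T g2 g3
        have g4 : y * T + 1 ≤ Real.exp (y * T) := Real.add_one_le_exp _
        have g5 : (1 + y) * T ≤ (1 + y) / y * Real.exp (y * T) := by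
          have : (1 + y) * T = (1 + y) / y * (y * T) := by field_simp
          rw [this]
          have h9 : 0 ≤ (1 + y) / y := by positivity
          nlinarith
        have g6 : Real.exp (y * T + 1) = Real.exp 1 * Real.exp (y * T) := by
          rw [← Real.exp_add]; congr 1; ring
        have g7 : Real.exp ((y + δ) * T) = Real.exp (δ * T) * Real.exp (y * T) := by
          rw [← Real.exp_add]; congr 1; ring
        rw [g6, g7]
        nlinarith [Real.exp_pos (y * T)]
      filter_upwards [e1, e3, eventually_ge_atTop 0] with T h9 h10 h11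
      have hyT : 0 ≤ y * T := by positivity
      have h12 : G (y * T) ≤ y * T * (Real.exp (Real.exp (y * T + 1)) + 1) :=
        Pool.Agent.X309.RM2.grow_le hyT
      have h13 : (1 : ℝ) ≤ Real.exp (Real.exp (y * T + 1)) := Real.one_le_exp (Real.exp_pos _).le
      have h14 : y * T ≤ Real.exp (y * T) := by
        have := Real.add_one_le_exp (y * T)
        linarith
      calc (k + 1) * G (y * T) ≤ (k + 1) * (y * T * (Real.exp (Real.exp (y * T + 1)) + 1)) := by
            gcongr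
        _ ≤ (k + 1) * (Real.exp (y * T) * (2 * Real.exp (Real.exp (y * T + 1)))) := by
            gcongr
            linarith
        _ = ((k + 1) * 2) * Real.exp (y * T) * Real.exp (Real.exp (y * T + 1)) := by ring
        _ ≤ Real.exp T * Real.exp (y * T) * Real.exp (Real.exp (y * T + 1)) := by gcongr
        _ = Real.exp ((1 + y) * T + Real.exp (y * T + 1)) := by
            rw [← Real.exp_add, ← Real.exp_add]; congr 1; ring
        _ ≤ _ := Real.exp_le_exp.2 h10
    filter_upwards [h3, h8, h2 (y / 2) (by linarith), eventually_gt_atTop 0] with T h9 h10 h11 h12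
    have h13 : f T ≤ Real.exp (Real.exp ((y + δ) * T)) := h9.trans h10
    have h14 : 0 < f T := (Real.exp_pos _).trans_le h11
    have h15 : Real.log (f T) ≤ Real.exp ((y + δ) * T) := by
      rw [Real.log_le_iff_le_exp h14]
      exact h13
    have h16 : 0 < Real.log (f T) := by
      have : Real.exp (y / 2 * T) ≤ Real.log (f T) := by
        rw [Real.le_log_iff_exp_le h14]
        exact h11
      exact (Real.exp_pos _).trans_le this
    have h17 : Real.log (Real.log (f T)) ≤ (y + δ) * T := by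
      rw [Real.log_le_iff_le_exp h16]
      exact h15
    rw [div_lt_iff₀ h12]
    have : y + δ < b := by rw [hδ]; linarith
    nlinarith

/-- **The smallest eigenvalue from sums over closed geodesics.** -/
theorem result (Γ : Subgroup (SpecialLinearGroup (Fin 2) ℤ)) (Z : ℂ → ℂ)
    (hZ : IsSelbergZeta Γ Z) :
    (∀ T : ℝ, 0 < T → (Summable fun x : Geodesic Γ × ℕ =>
        1 / (2 * ((x.2 : ℝ) + 1) * Real.sinh (((x.2 : ℝ) + 1) * Real.log (geoNorm x.1) / 2) *
          Real.Gamma (1 + ((x.2 : ℝ) + 1) * Real.log (geoNorm x.1) / T))) ∧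
      Summable fun x : Nat.Primes × ℕ => 1 / (((x.2 : ℝ) + 1) * √((x.1 : ℕ) : ℝ) ^ (x.2 + 1) *
        Real.Gamma (1 + ((x.2 : ℝ) + 1) * Real.log ((x.1 : ℕ) : ℝ) / T))) ∧
    (SelbergFor Γ → ∃ (m : ℤ) (c : ℝ), meromorphicOrderAt Z (1 / 2) = m ∧
      (fun T : ℝ => D Γ T - (m * Real.log T + c)) =O[atTop] (fun T : ℝ => 1 / T)) ∧
    (¬ SelbergFor Γ → ∃ μ : ℝ, IsLeast {ν | IsExceptional Γ ν} μ ∧
      Tendsto (fun T : ℝ => D Γ T / G (√(1 / 4 - μ) * T)) atTop
        (𝓝 (Module.finrank ℂ (eigenspace Γ μ) : ℝ)) ∧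
      0 < Module.finrank ℂ (eigenspace Γ μ) ∧
      (∀ y < √(1 / 4 - μ), ∀ᶠ T : ℝ in atTop, Real.exp (Real.exp (y * T)) ≤ D Γ T) ∧
      Tendsto (fun T : ℝ => Real.log (Real.log (D Γ T)) / T) atTop (𝓝 √(1 / 4 - μ))) ∧
    (SelbergFor Γ ↔ D Γ =O[atTop] Real.log) := by
  have hcnt := (data2 hZ).cnt
  have hM := (data2 hZ).mdata
  have hev : ∀ᶠ T : ℝ in atTop, D Γ T =
      -Pool.Agent.W189.ML.mean (Sum.elim (Pool.Agent.X309.SZ.len (geoNorm (Γ := Γ))) lamR)
        (Sum.elim (Pool.Agent.X309.SZ.cZ (geoNorm (Γ := Γ))) cR) T := by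
    filter_upwards [eventually_gt_atTop 0] with T hT
    exact D_eq hZ hT
  have part1 : SelbergFor Γ → ∃ (m : ℤ) (c : ℝ), meromorphicOrderAt Z (1 / 2) = m ∧
      (fun T : ℝ => D Γ T - (m * Real.log T + c)) =O[atTop] (fun T : ℝ => 1 / T) := by
    intro hS
    have htop := hM.order_ne_top (x := 0) ⟨le_rfl, by norm_num⟩
    rw [Complex.ofReal_zero] at htop
    obtain ⟨m, hm⟩ := WithTop.ne_top_iff_exists.1 htop
    obtain ⟨-, -, C, T₀, hC, hT₀, h1⟩ := hM.mean_regular hm.symm (regular hZ hS)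
    refine ⟨m, -(Real.log (meromorphicTrailingCoeffAt
      (fun w => Z (1 / 2 + w) * riemannZeta (1 / 2 + w)) 0).re + m * Pool.Agent.W189.LC.kap), ?_, ?_⟩
    · rw [← order2_zero hZ]; exact hm.symm
    · refine Asymptotics.IsBigO.of_bound C ?_
      filter_upwards [hev, eventually_ge_atTop T₀] with T h2 h3
      have hT1 : 0 < T := by linarith
      have h4 := h1 T h3
      rw [Real.norm_eq_abs, Real.norm_eq_abs, abs_of_pos (by positivity : 0 < 1 / T), mul_one_div,
        h2]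
      refine le_trans (le_of_eq ?_) h4
      rw [← abs_neg]
      congr 1
      ring
  have part2 : ¬ SelbergFor Γ → ∃ μ : ℝ, IsLeast {ν | IsExceptional Γ ν} μ ∧
      Tendsto (fun T : ℝ => D Γ T / G (√(1 / 4 - μ) * T)) atTop
        (𝓝 (Module.finrank ℂ (eigenspace Γ μ) : ℝ)) ∧
      0 < Module.finrank ℂ (eigenspace Γ μ) ∧
      (∀ y < √(1 / 4 - μ), ∀ᶠ T : ℝ in atTop, Real.exp (Real.exp (y * T)) ≤ D Γ T) ∧
      Tendsto (fun T : ℝ => Real.log (Real.log (D Γ T)) / T) atTop (𝓝 √(1 / 4 - μ)) := by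
    intro hS
    obtain ⟨μ, hμ, hpos, x₁, h1, h2, h3⟩ := singular hZ hS
    have hμ0 : 0 < μ := hμ.1.1
    have hμ1 : μ < 1 / 4 := hμ.1.2.1
    set y := √(1 / 4 - μ) with hy
    have hy0 : 0 < y := Real.sqrt_pos.2 (by linarith)
    have hysq : 1 / 4 - y ^ 2 = μ := by
      rw [hy, Real.sq_sqrt (by linarith)]; ring
    have hy1 : y < 1 / 2 := by
      rw [hy, Real.sqrt_lt' (by norm_num)]
      linarith
    have hord := order2_small hZ hy0 hy1
    rw [hysq] at hord
    have hne : (Module.finrank ℂ (eigenspace Γ μ) : ℤ) ≠ 0 := by exact_mod_cast hpos.ne'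
    obtain ⟨h4, h5⟩ := hM.growth h1 h2 (by linarith) hne hord h3
    have h6 : Tendsto (fun T : ℝ => D Γ T / G (y * T)) atTop
        (𝓝 (Module.finrank ℂ (eigenspace Γ μ) : ℝ)) := by
      have h7 := h4.neg
      rw [neg_neg, Int.cast_natCast] at h7
      refine h7.congr' ?_
      filter_upwards [hev] with T hT
      rw [hT, neg_div]
      rfl
    -- the sign
    have hsign : ∀ᶠ T : ℝ in atTop, 0 < D Γ T := by
      have hk : (0 : ℝ) < Module.finrank ℂ (eigenspace Γ μ) := by exact_mod_cast hpos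
      filter_upwards [h6.eventually (eventually_gt_nhds hk), eventually_ge_atTop (5 / y)]
        with T h7 h8
      have h9 : 5 ≤ y * T := by
        rw [div_le_iff₀ hy0] at h8
        linarith
      have h10 : 0 < G (y * T) := (Real.exp_pos _).trans_le (Pool.Agent.W189.ML.grow_ge h9)
      by_contra h11
      push Not at h11
      exact absurd h7 (not_lt.2 (div_nonpos_of_nonpos_of_nonneg h11 h10.le))
    have h7 : ∀ z < y, ∀ᶠ T : ℝ in atTop, Real.exp (Real.exp (z * T)) ≤ D Γ T := by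
      intro z hz
      filter_upwards [h5 z hz, hev, hsign] with T h8 h9 h10
      have h11 : |D Γ T| = D Γ T := abs_of_pos h10
      rw [← h11, h9, abs_neg]
      exact h8
    exact ⟨μ, hμ, h6, hpos, h7, loglog hy0 (by exact_mod_cast hpos) h6 h7⟩
  refine ⟨fun T hT => ⟨?_, ?_⟩, part1, part2, ?_⟩
  · refine ((data hZ).msum hT).summable.neg.congr fun x => ?_
    rw [geoSum_term]
  · refine (hdR.msum hT).summable.congr fun x => ?_
    rw [primeSum_term]
  constructor
  · intro hS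
    obtain ⟨m, c, -, h1⟩ := part1 hS
    have h2 : (fun T : ℝ => 1 / T) =O[atTop] Real.log := by
      refine Asymptotics.IsBigO.of_bound 1 ?_
      filter_upwards [eventually_ge_atTop (Real.exp 1)] with T hT
      have h3 : 1 ≤ Real.log T := by
        rw [Real.le_log_iff_exp_le ((Real.exp_pos _).trans_le hT)]
        exact hT
      have h4 : 1 ≤ T := (Real.one_le_exp (by norm_num)).trans hT
      rw [one_mul, Real.norm_eq_abs, Real.norm_eq_abs, abs_of_nonneg (by positivity),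
        abs_of_nonneg (by linarith)]
      have h5 : 1 / T ≤ 1 := by
        rw [div_le_one (by linarith)]
        exact h4
      linarith
    have h3 : (fun _ : ℝ => c) =O[atTop] Real.log := by
      refine Asymptotics.IsBigO.of_bound |c| ?_
      filter_upwards [eventually_ge_atTop (Real.exp 1)] with T hT
      have h4 : 1 ≤ Real.log T := by
        rw [Real.le_log_iff_exp_le ((Real.exp_pos _).trans_le hT)]
        exact hT
      rw [Real.norm_eq_abs, Real.norm_eq_abs, abs_of_nonneg (by linarith : 0 ≤ Real.log T)]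
      exact le_mul_of_one_le_right (abs_nonneg c) h4
    have h4 : (fun T : ℝ => (m : ℝ) * Real.log T) =O[atTop] Real.log :=
      (Asymptotics.isBigO_refl _ _).const_mul_left _
    have h5 := (h1.trans h2).add (h4.add h3)
    refine h5.congr_left fun T => ?_
    ring
  · intro hO
    by_contra hS
    obtain ⟨μ, hμ, -, -, h1, -⟩ := part2 hS
    have hμ1 : μ < 1 / 4 := hμ.1.2.1
    have hy0 : 0 < √(1 / 4 - μ) := Real.sqrt_pos.2 (by linarith)
    set y := √(1 / 4 - μ) with hy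
    have h2 := h1 (y / 2) (by linarith)
    obtain ⟨C, hC⟩ := hO.bound
    have h3 : ∀ᶠ T : ℝ in atTop, |C| * T < Real.exp (Real.exp (y / 2 * T)) := by
      have e1 : Tendsto (fun T : ℝ => y / 2 * T) atTop atTop :=
        tendsto_id.const_mul_atTop (by positivity)
      have e2 : Tendsto (fun T : ℝ => Real.exp (y / 2 * T) / (y / 2 * T)) atTop atTop := by
        have := (Real.tendsto_exp_div_pow_atTop 1).comp e1
        simpa [Function.comp_def] using this
      filter_upwards [e2.eventually_ge_atTop (|C| * (2 / y)), eventually_gt_atTop 0] with T h4 h5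
      have h6 : 0 < y / 2 * T := by positivity
      rw [le_div_iff₀ h6] at h4
      have h7 : |C| * (2 / y) * (y / 2 * T) = |C| * T := by field_simp
      rw [h7] at h4
      have h8 := Real.add_one_le_exp (Real.exp (y / 2 * T))
      linarith
    obtain ⟨T, h4, h5, h6, h7⟩ := (h2.and (hC.and (h3.and (eventually_ge_atTop 1)))).exists
    have h8 : 0 ≤ Real.log T := Real.log_nonneg h7
    have h9 : Real.log T ≤ T := (Real.log_le_sub_one_of_pos (by linarith)).trans (by linarith)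
    rw [Real.norm_eq_abs, Real.norm_eq_abs, abs_of_nonneg h8] at h5
    have h10 : D Γ T ≤ |C| * T := by
      calc D Γ T ≤ |D Γ T| := le_abs_self _
        _ ≤ C * Real.log T := h5
        _ ≤ |C| * T := by
          calc C * Real.log T ≤ |C| * Real.log T := by gcongr; exact le_abs_self C
            _ ≤ |C| * T := by gcongr
    linarith

end Pool.Agent.Results.MP_a812b2_nt.SmallestEigenvalue
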